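import Mathlib

/-!
The first crossing of Newton polygons: the reduction of a curve at a suitable radius.
-/

set_option autoImplicit false

namespace Pool.Agent.R393.UH

theorem crossing {K Γ : Type} [Field K] [IsAlgClosed K] [LinearOrderedCommGroupWithZero Γ]
    (v : Valuation K Γ) {ι : Type} [Fintype ι] (b : ℕ → K) (a : ι → ℕ → K) (N : ℕ) (hb0 : b 0 = 1)
    (hbN : ∀ m, N < m → b m = 0) (ha0 : ∀ i, a i 0 = 0) (haN : ∀ i m, N < m → a i m = 0)
    (i1 : ι) (M1 : ℕ) (h1 : a i1 M1 ≠ 0) (h1b : ∀ m, M1 ≤ m → b m = 0) :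
    ∃ (t : K) (m0 : ℕ) (i2 : ι) (m1 : ℕ), t ≠ 0 ∧
      (∀ m, v (b m * t ^ m) ≤ v (b m0 * t ^ m0)) ∧
      (∀ m, m < m0 → v (b m * t ^ m) < v (b m0 * t ^ m0)) ∧
      (∀ i m, v (a i m * t ^ m) ≤ v (b m0 * t ^ m0)) ∧
      (∀ i m, m ≤ m0 → v (a i m * t ^ m) < v (b m0 * t ^ m0)) ∧
      v (a i2 m1 * t ^ m1) = v (b m0 * t ^ m0) ∧ v (b m0 * t ^ m0) ≠ 0 := by
  classical
  have hlam : ∀ (i : ι) (m m' : ℕ), ∃ l : K, a i m ≠ 0 → b m' ≠ 0 → m' < m →
      l ≠ 0 ∧ l ^ (m - m') * a i m = b m' := by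
    intro i m m'
    by_cases h : a i m ≠ 0 ∧ b m' ≠ 0 ∧ m' < m
    · obtain ⟨l, hl⟩ := IsAlgClosed.exists_pow_nat_eq (b m' / a i m) (Nat.sub_pos_of_lt h.2.2)
      refine ⟨l, fun h2 h3 h4 => ⟨?_, ?_⟩⟩
      · rintro rfl
        rw [zero_pow (Nat.sub_pos_of_lt h4).ne'] at hl
        exact div_ne_zero h3 h2 hl.symm
      · rw [hl, div_mul_cancel₀ _ h2]
    · exact ⟨0, fun h2 h3 h4 => absurd ⟨h2, h3, h4⟩ h⟩
  choose lam hlam using hlam
  let Λ : Finset K := (Finset.univ : Finset ι).biUnion fun i =>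
    (Finset.range (N + 1)).biUnion fun m => (Finset.range (N + 1)).image fun m' => lam i m m'
  have hΛ : ∀ i m m', m ≤ N → m' ≤ N → lam i m m' ∈ Λ := by
    intro i m m' hm hm'
    rw [Finset.mem_biUnion]
    refine ⟨i, Finset.mem_univ i, ?_⟩
    rw [Finset.mem_biUnion]
    exact ⟨m, Finset.mem_range.2 (Nat.lt_succ_of_le hm),
      Finset.mem_image.2 ⟨m', Finset.mem_range.2 (Nat.lt_succ_of_le hm'), rfl⟩⟩
  let Q : K → Prop := fun t => t ≠ 0 ∧ ∃ i m, ∀ m', v (b m' * t ^ m') ≤ v (a i m * t ^ m)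
  have K0 : ∀ i m, a i m ≠ 0 → ∃ s ∈ Λ, s ≠ 0 ∧
      (∀ m', m' < m → v (b m' * s ^ m') ≤ v (a i m * s ^ m)) ∧
      ∃ m', m' < m ∧ b m' * s ^ m' = a i m * s ^ m := by
    intro i m hm
    have hm0 : m ≠ 0 := fun h => hm (by rw [h, ha0])
    have hmN : m ≤ N := by
      by_contra h
      exact hm (haN i m (not_le.1 h))
    let J := (Finset.range m).filter fun m' => b m' ≠ 0
    have hJ : J.Nonempty := ⟨0, Finset.mem_filter.2 ⟨Finset.mem_range.2 (Nat.pos_of_ne_zero hm0), by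
      rw [hb0]
      exact one_ne_zero⟩⟩
    obtain ⟨m', hm', hmax⟩ := J.exists_max_image (fun m' => v (lam i m m')) hJ
    obtain ⟨h2, h3⟩ := Finset.mem_filter.1 hm'
    have h2' := Finset.mem_range.1 h2
    obtain ⟨h4, h5⟩ := hlam i m m' hm h3 h2'
    refine ⟨lam i m m', hΛ i m m' hmN (h2'.le.trans hmN), h4, fun m'' hm'' => ?_, m', h2', ?_⟩
    · by_cases hb : b m'' = 0
      · rw [hb, zero_mul, map_zero]
        exact zero_le'
      · obtain ⟨h6, h7⟩ := hlam i m m'' hm hb hm''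
        have h8 := hmax m'' (Finset.mem_filter.2 ⟨Finset.mem_range.2 hm'', hb⟩)
        have h9 : a i m * lam i m m' ^ m = a i m * (lam i m m' ^ (m - m'') * lam i m m' ^ m'') := by
          rw [← pow_add, Nat.sub_add_cancel hm''.le]
        rw [h9, ← h7, map_mul, map_mul, map_mul, map_mul, map_pow, map_pow, map_pow]
        calc v (lam i m m'') ^ (m - m'') * v (a i m) * v (lam i m m') ^ m''
            ≤ v (lam i m m') ^ (m - m'') * v (a i m) * v (lam i m m') ^ m'' := by gcongr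
          _ = v (a i m) * (v (lam i m m') ^ (m - m'') * v (lam i m m') ^ m'') := by
            rw [mul_comm (v (lam i m m') ^ (m - m'')), mul_assoc]
    · rw [← h5, mul_comm _ (a i m), mul_assoc, ← pow_add, Nat.sub_add_cancel h2'.le]
  have K1 : ∀ t, t ≠ 0 → ∀ i m, a i m ≠ 0 → (∀ m', v (b m' * t ^ m') ≤ v (a i m * t ^ m)) →
      (∀ m', m' < m → v (b m' * t ^ m') < v (a i m * t ^ m)) → ∃ s ∈ Λ, Q s ∧ v s < v t := by
    intro t ht i m hm h2 h3
    obtain ⟨s, hs, hs0, h4, m', hm', h5⟩ := K0 i m hm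
    have hvs : v s ≠ 0 := (Valuation.ne_zero_iff v).2 hs0
    have hvt : v t ≠ 0 := (Valuation.ne_zero_iff v).2 ht
    have hst : v s < v t := by
      by_contra h
      rw [not_lt] at h
      have h6 := h3 m' hm'
      apply not_le.2 h6
      obtain ⟨k, rfl⟩ := Nat.exists_eq_add_of_lt hm'
      have h7 : b m' = a i (m' + k + 1) * s ^ (k + 1) := by
        have h8 : b m' * s ^ m' = a i (m' + k + 1) * s ^ (k + 1) * s ^ m' := by
          rw [h5, mul_assoc, ← pow_add]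
          congr 2
          omega
        exact mul_right_cancel₀ (pow_ne_zero _ hs0) h8
      rw [h7]
      have h9 : a i (m' + k + 1) * t ^ (m' + k + 1) = a i (m' + k + 1) * t ^ (k + 1) * t ^ m' := by
        rw [mul_assoc, ← pow_add]
        congr 2
        omega
      rw [h9]
      simp only [map_mul, map_pow]
      gcongr
    refine ⟨s, hs, ⟨hs0, i, m, fun m'' => ?_⟩, hst⟩
    rcases lt_or_ge m'' m with h6 | h6
    · exact h4 m'' h6
    · obtain ⟨k, rfl⟩ := Nat.exists_eq_add_of_le h6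
      have h7 := h2 (m + k)
      have h8 : v (b (m + k)) * v t ^ k ≤ v (a i m) := by
        have h9 : v (b (m + k)) * v t ^ k * v t ^ m ≤ v (a i m) * v t ^ m := by
          calc v (b (m + k)) * v t ^ k * v t ^ m = v (b (m + k) * t ^ (m + k)) := by
                rw [map_mul, map_pow, mul_assoc, ← pow_add, add_comm k m]
            _ ≤ v (a i m * t ^ m) := h7
            _ = v (a i m) * v t ^ m := by rw [map_mul, map_pow]
        exact le_of_mul_le_mul_right h9 (zero_lt_iff.2 (pow_ne_zero _ hvt))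
      calc v (b (m + k) * s ^ (m + k)) = v (b (m + k)) * v s ^ k * v s ^ m := by
            rw [map_mul, map_pow, mul_assoc, ← pow_add, add_comm k m]
        _ ≤ v (b (m + k)) * v t ^ k * v s ^ m := by gcongr
        _ ≤ v (a i m) * v s ^ m := by gcongr
        _ = v (a i m * s ^ m) := by rw [map_mul, map_pow]
  have hS : (Λ.filter Q).Nonempty := by
    obtain ⟨s, hs, hs0, h4, -⟩ := K0 i1 M1 h1
    refine ⟨s, Finset.mem_filter.2 ⟨hs, hs0, i1, M1, fun m' => ?_⟩⟩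
    rcases lt_or_ge m' M1 with h6 | h6
    · exact h4 m' h6
    · rw [h1b m' h6, zero_mul, map_zero]
      exact zero_le'
  obtain ⟨t, htS, htmin⟩ := (Λ.filter Q).exists_min_image (fun t => v t) hS
  obtain ⟨htΛ, ht0, i2, m1, hQ⟩ := Finset.mem_filter.1 htS
  have hno : ∀ i m, a i m ≠ 0 → (∀ m', v (b m' * t ^ m') ≤ v (a i m * t ^ m)) →
      (∀ m', m' < m → v (b m' * t ^ m') < v (a i m * t ^ m)) → False := by
    intro i m h2 h3 h4
    obtain ⟨s, hs, hQs, hlt⟩ := K1 t ht0 i m h2 h3 h4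
    exact absurd (htmin s (Finset.mem_filter.2 ⟨hs, hQs⟩)) (not_le.2 hlt)
  have hex : ∃ m, ∀ m', v (b m' * t ^ m') ≤ v (b m * t ^ m) := by
    obtain ⟨m, -, hm⟩ := (Finset.range (N + 1)).exists_max_image (fun m => v (b m * t ^ m))
      ⟨0, Finset.mem_range.2 (Nat.succ_pos N)⟩
    refine ⟨m, fun m' => ?_⟩
    rcases lt_or_ge N m' with h | h
    · rw [hbN m' h, zero_mul, map_zero]
      exact zero_le'
    · exact hm m' (Finset.mem_range.2 (Nat.lt_succ_of_le h))
  obtain ⟨m0, hm0, hm0min⟩ : ∃ m0, (∀ m', v (b m' * t ^ m') ≤ v (b m0 * t ^ m0)) ∧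
      ∀ m, m < m0 → ¬ ∀ m', v (b m' * t ^ m') ≤ v (b m * t ^ m) :=
    ⟨Nat.find hex, Nat.find_spec hex, fun m hm => Nat.find_min hex hm⟩
  have hB1 : (1 : Γ) ≤ v (b m0 * t ^ m0) := by
    have h2 := hm0 0
    rwa [hb0, pow_zero, mul_one, map_one] at h2
  have hB0 : v (b m0 * t ^ m0) ≠ 0 := (zero_lt_one.trans_le hB1).ne'
  have hlt0 : ∀ m, m < m0 → v (b m * t ^ m) < v (b m0 * t ^ m0) := by
    intro m hm
    have h2 := hm0min m hm
    push Not at h2
    obtain ⟨m', h3⟩ := h2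
    exact h3.trans_le (hm0 m')
  have hle : ∀ i m, v (a i m * t ^ m) ≤ v (b m0 * t ^ m0) := by
    intro i m
    by_contra h
    rw [not_le] at h
    refine hno i m ?_ (fun m' => (hm0 m').trans h.le) (fun m' _ => (hm0 m').trans_lt h)
    rintro h2
    rw [h2, zero_mul, map_zero] at h
    exact not_lt_zero' h
  have hlt : ∀ i m, m ≤ m0 → v (a i m * t ^ m) < v (b m0 * t ^ m0) := by
    intro i m hm
    by_contra h
    rw [not_lt] at h
    refine hno i m ?_ (fun m' => (hm0 m').trans h) (fun m' h3 => (hlt0 m' (h3.trans_le hm)).trans_le h)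
    rintro h2
    rw [h2, zero_mul, map_zero] at h
    exact hB0 (le_zero_iff.1 h)
  exact ⟨t, m0, i2, m1, ht0, hm0, hlt0, hle, hlt, le_antisymm (hle i2 m1) (hQ m0), hB0⟩

end Pool.Agent.R393.UH
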