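import Pool.Agent.R393.UH.Spc

/-!
Specialisation of rational curves to an algebraically closed field, with the degrees.
-/

set_option autoImplicit false

namespace Pool.Agent.R393.UH

open MvPolynomial Pool.Agent.R393.UF
open Pool.Agent.R393.UA (spec_adj)

/-- specialisation of a curve, keeping the coordinates of the point which are in `κ` -/
theorem spec_gen {κ Ω : Type} [Field κ] [IsAlgClosed κ] [Field Ω] (α : κ →+* Ω) {n : ℕ} {ι : Type}
    {A : Type} [CommRing A] (α0 : A →+* κ)
    (F : ι → MvPolynomial (Fin (n + 1)) A) (p : Fin (n + 1) → Polynomial Ω)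
    (hF : ∀ i, eval₂ (Polynomial.C.comp (α.comp α0)) p (F i) = 0)
    (hc : ∃ i j, p i * Polynomial.C ((p j).eval 1) ≠ p j * Polynomial.C ((p i).eval 1)) :
    ∃ p' : Fin (n + 1) → Polynomial κ, (∀ i, (p' i).natDegree ≤ (p i).natDegree) ∧
      (∀ i, eval₂ (Polynomial.C.comp α0) p' (F i) = 0) ∧
      (∀ j c, (p j).eval 1 = α c → (p' j).eval 1 = c) ∧
      ∃ i j, p' i * Polynomial.C ((p' j).eval 1) ≠ p' j * Polynomial.C ((p' i).eval 1) := by
  classical
  let _ : Algebra κ Ω := α.toAlgebra
  obtain ⟨i0, j0, h0⟩ := hc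
  let S : Finset Ω := Finset.univ.biUnion fun j => (p j).support.image fun m => (p j).coeff m
  have hS : ∀ (j : Fin (n + 1)) (m : ℕ), (p j).coeff m ∈ Algebra.adjoin κ (S : Set Ω) := by
    intro j m
    by_cases h : (p j).coeff m = 0
    · rw [h]
      exact Subalgebra.zero_mem _
    · apply Algebra.subset_adjoin
      rw [Finset.mem_coe, Finset.mem_biUnion]
      exact ⟨j, Finset.mem_univ j, Finset.mem_image.2 ⟨m, Polynomial.mem_support_iff.2 h, rfl⟩⟩
  have hS1 : ∀ j, (p j).eval 1 ∈ Algebra.adjoin κ (S : Set Ω) := by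
    intro j
    rw [Polynomial.eval_eq_sum_range]
    refine Subalgebra.sum_mem _ fun m _ => ?_
    rw [one_pow, mul_one]
    exact hS j m
  obtain ⟨m0, hm0⟩ : ∃ m, (p i0 * Polynomial.C ((p j0).eval 1) -
      p j0 * Polynomial.C ((p i0).eval 1)).coeff m ≠ 0 := by
    by_contra hcon
    push Not at hcon
    apply h0
    rw [← sub_eq_zero]
    ext m
    rw [hcon m, Polynomial.coeff_zero]
  obtain ⟨R, K', i1, i2, i3, ψ, h1, hwR, h2⟩ := spec_adj κ S _ hm0 (by
    rw [Polynomial.coeff_sub, Polynomial.coeff_mul_C, Polynomial.coeff_mul_C]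
    exact Subalgebra.sub_mem _ (Subalgebra.mul_mem _ (hS _ _) (hS1 _))
      (Subalgebra.mul_mem _ (hS _ _) (hS1 _)))
  have hSR : Algebra.adjoin κ (S : Set Ω) ≤ R := Algebra.adjoin_le h1
  choose pl hpl hpl' using fun j => exists_liftP (R.val : R →+* Ω) (p j)
    (fun m => ⟨⟨_, hSR (hS j m)⟩, rfl⟩)
  have hRinj : Function.Injective (R.val : R →+* Ω) := Subtype.val_injective
  have hFl : ∀ i, eval₂ (Polynomial.C.comp ((algebraMap κ R).comp α0)) pl (F i) = 0 := by
    intro i
    apply Polynomial.map_injective (R.val : R →+* Ω) hRinj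
    rw [Polynomial.map_zero, map_eval₂, ← hF i]
    congr 1
    exact funext hpl
  have hsurj : Function.Bijective (algebraMap κ K') :=
    IsAlgClosed.algebraMap_bijective_of_isIntegral
  let e : κ ≃ₐ[κ] K' := AlgEquiv.ofBijective (Algebra.ofId κ K') hsurj
  let χ : R →ₐ[κ] κ := (e.symm : K' →ₐ[κ] κ).comp ψ
  have hχ : (χ : R →+* κ).comp ((algebraMap κ R).comp α0) = α0 := by
    refine RingHom.ext fun a => ?_
    exact χ.commutes (α0 a)
  refine ⟨fun j => (pl j).map (χ : R →+* κ), fun j => ?_, fun i => ?_, fun j c hj => ?_, i0, j0,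
    fun h3 => ?_⟩
  · exact Polynomial.natDegree_map_le.trans (hpl' j)
  · have h3 := congrArg (Polynomial.map (χ : R →+* κ)) (hFl i)
    rw [Polynomial.map_zero, map_eval₂, hχ] at h3
    exact h3
  · rw [eval_one_map']
    have h3 : (pl j).eval 1 = algebraMap κ R c := by
      apply hRinj
      rw [← eval_one_map', hpl, hj]
      rfl
    rw [h3]
    exact χ.commutes c
  · apply h2
    have h4 : (⟨_, hwR⟩ : R) = (pl i0 * Polynomial.C ((pl j0).eval 1) -
        pl j0 * Polynomial.C ((pl i0).eval 1)).coeff m0 := by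
      apply hRinj
      change (p i0 * Polynomial.C ((p j0).eval 1) - p j0 * Polynomial.C ((p i0).eval 1)).coeff m0 =
        (R.val : R →+* Ω) _
      rw [← Polynomial.coeff_map, Polynomial.map_sub, Polynomial.map_mul, Polynomial.map_mul,
        Polynomial.map_C, Polynomial.map_C, ← eval_one_map' (R.val : R →+* Ω) (pl j0),
        ← eval_one_map' (R.val : R →+* Ω) (pl i0), hpl, hpl]
    rw [h4]
    apply e.symm.injective
    rw [map_zero]
    change (χ : R →+* κ) ((pl i0 * Polynomial.C ((pl j0).eval 1) -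
        pl j0 * Polynomial.C ((pl i0).eval 1)).coeff m0) = 0
    beta_reduce at h3
    rw [← Polynomial.coeff_map, Polynomial.map_sub, Polynomial.map_mul, Polynomial.map_mul,
      Polynomial.map_C, Polynomial.map_C, ← eval_one_map' (χ : R →+* κ) (pl j0),
      ← eval_one_map' (χ : R →+* κ) (pl i0), h3, sub_self, Polynomial.coeff_zero]

end Pool.Agent.R393.UH
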