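import Pool.Agent.R393.UH.Gen
import Pool.Agent.R393.UF.Fin

/-!
Limits of rational curves of bounded degree; the union of the rational curves of bounded degree is
closed.
-/

set_option autoImplicit false

namespace Pool.Agent.R393.UH

open MvPolynomial Pool.Agent.Y377.ST
open Pool.Agent.R393.UO Pool.Agent.R393.UF Pool.Agent.R393.UD

/-- limits of rational curves -/
theorem lim_curve {Θ : (ℕ → ℂ) →+* ℂ} (hΘ : ∀ f : ℕ → ℂ, (∃ n, ∀ i, n ≤ i → f i = 0) → Θ f = 0)
    {n : ℕ} (D : ℕ) (p : ℕ → Fin (n + 1) → Polynomial ℂ) (hD : ∀ T i, (p T i).natDegree ≤ D) :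
    ∃ p' : Fin (n + 1) → Polynomial ℂ, (∀ i, (p' i).natDegree ≤ D) ∧
      (∀ j, (p' j).eval 1 = Θ fun T => (p T j).eval 1) ∧
      (∀ (A : Type) [CommRing A] (Φ : A →+* (ℕ → ℂ)) (G : MvPolynomial (Fin (n + 1)) A),
        (∀ T, eval₂ (Polynomial.C.comp ((Pi.evalRingHom (fun _ : ℕ => ℂ) T).comp Φ)) (p T) G = 0) →
          eval₂ (Polynomial.C.comp (Θ.comp Φ)) p' G = 0) ∧
      (∀ n0, (∀ T, n0 ≤ T → ∃ i j, p T i * Polynomial.C ((p T j).eval 1) ≠
        p T j * Polynomial.C ((p T i).eval 1)) →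
        ∃ i j, p' i * Polynomial.C ((p' j).eval 1) ≠ p' j * Polynomial.C ((p' i).eval 1)) := by
  classical
  let pl : Fin (n + 1) → Polynomial (ℕ → ℂ) := fun j =>
    ∑ m ∈ Finset.range (D + 1), Polynomial.C (fun T => (p T j).coeff m) * Polynomial.X ^ m
  let ev : ∀ T : ℕ, (ℕ → ℂ) →+* ℂ := fun T => Pi.evalRingHom (fun _ : ℕ => ℂ) T
  have hpld : ∀ j, (pl j).natDegree ≤ D := by
    intro j
    refine Polynomial.natDegree_sum_le_of_forall_le _ _ fun m hm => ?_
    refine (Polynomial.natDegree_C_mul_X_pow_le _ _).trans ?_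
    have := Finset.mem_range.1 hm
    omega
  have hplT : ∀ T j, (pl j).map (ev T) = p T j := by
    intro T j
    change (∑ m ∈ Finset.range (D + 1), Polynomial.C (fun T => (p T j).coeff m) *
      Polynomial.X ^ m : Polynomial (ℕ → ℂ)).map (ev T) = p T j
    rw [Polynomial.map_sum]
    conv_rhs => rw [(p T j).as_sum_range' (D + 1) (Nat.lt_succ_of_le (hD T j))]
    refine Finset.sum_congr rfl fun m _ => ?_
    rw [Polynomial.map_mul, Polynomial.map_C, Polynomial.map_pow, Polynomial.map_X,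
      ← Polynomial.C_mul_X_pow_eq_monomial]
    rfl
  have hev1 : ∀ j, (pl j).eval 1 = fun T => (p T j).eval 1 := by
    intro j
    funext T
    change ev T ((pl j).eval 1) = _
    rw [← eval_one_map', hplT]
  refine ⟨fun j => (pl j).map Θ, fun j => Polynomial.natDegree_map_le.trans (hpld j), fun j => ?_,
    fun A _ Φ G hG => ?_, fun n0 hn0 => ?_⟩
  · rw [eval_one_map', hev1]
  · have h1 : eval₂ (Polynomial.C.comp Φ) pl G = 0 := by
      ext m : 1
      funext T
      change ev T ((eval₂ (Polynomial.C.comp Φ) pl G).coeff m) = 0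
      rw [← Polynomial.coeff_map, map_eval₂]
      have h2 : (fun j => (pl j).map (ev T)) = p T := funext fun j => hplT T j
      rw [h2, hG T, Polynomial.coeff_zero]
    rw [← map_eval₂, h1, Polynomial.map_zero]
  · let U : Fin (n + 1) → Fin (n + 1) → Polynomial (ℕ → ℂ) := fun i j =>
      pl i * Polynomial.C ((pl j).eval 1) - pl j * Polynomial.C ((pl i).eval 1)
    have hU : ∀ (φ : (ℕ → ℂ) →+* ℂ) i j, (U i j).map φ =
        (pl i).map φ * Polynomial.C (((pl j).map φ).eval 1) -
          (pl j).map φ * Polynomial.C (((pl i).map φ).eval 1) := by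
      intro φ i j
      change (pl i * Polynomial.C ((pl j).eval 1) - pl j * Polynomial.C ((pl i).eval 1)).map φ = _
      rw [Polynomial.map_sub, Polynomial.map_mul, Polynomial.map_mul, Polynomial.map_C,
        Polynomial.map_C, eval_one_map' φ (pl j), eval_one_map' φ (pl i)]
    obtain ⟨⟨i, j, m⟩, h1⟩ := theta_ne hΘ
      (fun (t : Fin (n + 1) × Fin (n + 1) × Fin (D + 1)) => (U t.1 t.2.1).coeff (t.2.2 : ℕ)) n0
      (fun T hT => by
        obtain ⟨i, j, hij⟩ := hn0 T hT
        have h2 : (U i j).map (ev T) ≠ 0 := by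
          rw [hU, hplT, hplT]
          exact sub_ne_zero.2 hij
        obtain ⟨m, hm⟩ : ∃ m, ((U i j).map (ev T)).coeff m ≠ 0 := by
          by_contra hcon
          push Not at hcon
          exact h2 (Polynomial.ext fun m => by rw [hcon m, Polynomial.coeff_zero])
        have hmD : m < D + 1 := by
          by_contra h3
          apply hm
          apply Polynomial.coeff_eq_zero_of_natDegree_lt
          refine lt_of_le_of_lt ?_ (by omega : D < m)
          rw [hU, hplT, hplT]
          refine (Polynomial.natDegree_sub_le _ _).trans (max_le ?_ ?_)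
          · exact (Polynomial.natDegree_mul_C_le _ _).trans (hD T i)
          · exact (Polynomial.natDegree_mul_C_le _ _).trans (hD T j)
        refine ⟨(i, j, ⟨m, hmD⟩), ?_⟩
        rw [Polynomial.coeff_map] at hm
        exact hm)
    refine ⟨i, j, fun h2 => h1 ?_⟩
    change Θ ((U i j).coeff (m : ℕ)) = 0
    rw [← Polynomial.coeff_map, hU]
    beta_reduce at h2
    rw [h2, sub_self, Polynomial.coeff_zero]

/-- a base point on a curve -/
theorem cross_of {K : Type} [Field K] [Infinite K] {n : ℕ} {p : Fin (n + 1) → Polynomial K}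
    (h : ∃ t s i j, (p i).eval t * (p j).eval s ≠ (p j).eval t * (p i).eval s)
    (h0 : ∃ i, (p i).eval 1 ≠ 0) :
    ∃ i j, p i * Polynomial.C ((p j).eval 1) ≠ p j * Polynomial.C ((p i).eval 1) := by
  by_contra hcon
  push Not at hcon
  obtain ⟨t, s, i, j, h1⟩ := h
  obtain ⟨l, hl⟩ := h0
  have h2 : ∀ i t, (p i).eval t * (p l).eval 1 = (p l).eval t * (p i).eval 1 := by
    intro i t
    have h3 := congrArg (Polynomial.eval t) (hcon i l)
    rwa [Polynomial.eval_mul, Polynomial.eval_mul, Polynomial.eval_C, Polynomial.eval_C] at h3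
  apply h1
  apply mul_right_cancel₀ (mul_ne_zero hl hl)
  linear_combination ((p j).eval s * (p l).eval 1) * h2 i t +
    ((p l).eval t * (p i).eval 1) * h2 j s - ((p i).eval s * (p l).eval 1) * h2 j t -
    ((p l).eval t * (p j).eval 1) * h2 i s

theorem eval_shift {K : Type} [Field K] (f : Polynomial K) (z t : K) :
    (f.comp (Polynomial.X + Polynomial.C z)).eval t = f.eval (t + z) := by
  rw [Polynomial.eval_comp, Polynomial.eval_add, Polynomial.eval_X, Polynomial.eval_C]

/-- **The union of the rational curves of degree at most `D` is closed.** -/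
theorem onRat_of_closure {n : ℕ} {ι : Type} [Fintype ι] (F : ι → MvPolynomial (Fin (n + 1)) ℂ)
    (hhom : ∀ i, ∃ e, (F i).IsHomogeneous e) (D : ℕ) (v : Fin (n + 1) → ℂ) (hv : v ≠ 0)
    (h : v ∈ SpRat D F) : OnRat D F v := by
  classical
  obtain ⟨i0, hi0⟩ := Function.ne_iff.1 hv
  let Sc : Finset ℂ := Finset.univ.biUnion fun i => (F i).coeffs
  let k : Subalgebra ℤ ℂ := Algebra.adjoin ℤ (Sc : Set ℂ)
  have hk : Countable k := by
    have hft : Algebra.FiniteType ℤ k :=
      (Subalgebra.fg_iff_finiteType _).1 (Subalgebra.fg_adjoin_finset Sc)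
    exact countable_of_ft k
  let kv : k →+* ℂ := k.val.toRingHom
  have hkv : Function.Injective kv := Subtype.val_injective
  have hlift : ∀ i, ∃ P0 : MvPolynomial (Fin (n + 1)) k, map kv P0 = F i := by
    intro i
    have h1 : F i ∈ Set.range (map kv : MvPolynomial (Fin (n + 1)) k →+* _) := by
      rw [mem_range_map_iff_coeffs_subset]
      intro c hc
      exact ⟨⟨c, Algebra.subset_adjoin (Finset.mem_coe.2 (Finset.mem_biUnion.2
        ⟨i, Finset.mem_univ i, Finset.mem_coe.1 hc⟩))⟩, rfl⟩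
    exact h1
  choose FA hFA using hlift
  have hFAh : ∀ i, ∃ e, (FA i).IsHomogeneous e := by
    intro i
    obtain ⟨e, he⟩ := hhom i
    refine ⟨e, fun m hm => ?_⟩
    apply he
    rw [← hFA, coeff_map]
    intro h0
    exact hm (hkv (by rw [h0, map_zero]))
  -- the forms which do not vanish at `v`
  let S : Type := {G : MvPolynomial (Fin (n + 1)) k // (∃ a, G.IsHomogeneous a) ∧
    eval₂ kv v G ≠ 0}
  have hcs : Countable (MvPolynomial (Fin (n + 1)) k) := by
    rw [← Cardinal.mk_le_aleph0_iff]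
    refine cardinalMk_le_max.trans ?_
    exact max_le (max_le (Cardinal.mk_le_aleph0_iff.2 inferInstance)
      (Cardinal.mk_le_aleph0_iff.2 inferInstance)) le_rfl
  let GX : S := ⟨X i0, ⟨1, isHomogeneous_X _ _⟩, by rw [eval₂_X]; exact hi0⟩
  have hne : Nonempty S := ⟨GX⟩
  obtain ⟨en, hen⟩ := exists_surjective_nat S
  let Q : ℕ → MvPolynomial (Fin (n + 1)) k := fun i => ∏ j ∈ Finset.range (i + 1), (en j).1
  have hQ1 : ∀ i, ∃ d, (Q i).IsHomogeneous d := by
    intro i
    choose d hd using fun j => (en j).2.1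
    exact ⟨_, IsHomogeneous.prod _ _ d fun j _ => hd j⟩
  have hQ2 : ∀ i, eval₂ kv v (Q i) ≠ 0 := by
    intro i
    have h1 : eval₂ kv v (Q i) = ∏ j ∈ Finset.range (i + 1), eval₂ kv v (en j).1 :=
      map_prod (eval₂Hom kv v) (fun j => (en j).1) (Finset.range (i + 1))
    rw [h1]
    exact Finset.prod_ne_zero_iff.2 fun j _ => (en j).2.2
  have hcur : ∀ T, ∃ (p : Fin (n + 1) → Polynomial ℂ), (∀ i, (p i).natDegree ≤ D) ∧
      RatCurve F p ∧ eval₂ kv (fun i => (p i).eval 1) (Q T) ≠ 0 := by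
    intro T
    by_contra hcon
    push Not at hcon
    apply hQ2 T
    obtain ⟨a, ha⟩ := hQ1 T
    have h1 := h (map kv (Q T)) a (ha.map kv) (fun p hp hc z => by
      have h2 := hcon (fun i => (p i).comp (Polynomial.X + Polynomial.C (z - 1))) (fun i => by
          rw [Polynomial.natDegree_comp, Polynomial.natDegree_X_add_C, mul_one]
          exact hp i) ⟨fun i => by
          apply Polynomial.funext
          intro t
          rw [← ev_poly]
          simp only [eval_shift]
          rw [ev_poly, hc.1 i, Polynomial.eval_zero, Polynomial.eval_zero], by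
          obtain ⟨t, s, i, j, h3⟩ := hc.2
          refine ⟨t - (z - 1), s - (z - 1), i, j, ?_⟩
          simp only [eval_shift, sub_add_cancel]
          exact h3⟩
      simp only [eval_shift, add_sub_cancel] at h2
      rw [aeval_def, eval₂_map]
      exact h2)
    rw [aeval_def, eval₂_map] at h1
    exact h1
  choose p hp1 hp2 hp3 using hcur
  obtain ⟨Θ, hΘ⟩ := Pool.Agent.Y455.ST.t_THETA
  obtain ⟨p', k1, k2, k3, k4⟩ := lim_curve hΘ D p hp1
  let dg : ℂ →+* (ℕ → ℂ) := RingHom.pi fun _ => RingHom.id ℂ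
  let Φ : k →+* (ℕ → ℂ) := dg.comp kv
  have hΦT : ∀ T, (Pi.evalRingHom (fun _ : ℕ => ℂ) T).comp Φ = kv := fun T =>
    RingHom.ext fun a => rfl
  have hdiv : ∀ G : S, ∃ m, ∀ T, m ≤ T → eval₂ kv (fun i => (p T i).eval 1) G.1 ≠ 0 := by
    intro G
    obtain ⟨m, hm⟩ := hen G
    refine ⟨m, fun T hT h1 => hp3 T ?_⟩
    have h2 : G.1 ∣ Q T := by
      rw [← hm]
      exact Finset.dvd_prod_of_mem (fun j => (en j).1) (Finset.mem_range.2 (by omega))
    obtain ⟨c, hc⟩ := h2
    rw [hc, eval₂_mul, h1, zero_mul]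
  have hlim : ∀ G : MvPolynomial (Fin (n + 1)) k, eval₂ (Θ.comp Φ) (fun i => (p' i).eval 1) G =
      Θ fun T => eval₂ kv (fun i => (p T i).eval 1) G := by
    intro G
    have h1 : (fun i => (p' i).eval 1) = fun i => Θ fun T => (p T i).eval 1 := funext k2
    rw [h1, ← hom_eval₂]
    congr 1
    funext T
    have h2 := hom_eval₂ G Φ (Pi.evalRingHom (fun _ : ℕ => ℂ) T) (fun i T => (p T i).eval 1)
    rw [hΦT] at h2
    exact h2
  obtain ⟨mX, hmX⟩ := hdiv GX
  have hnc' := k4 mX (fun T hT => cross_of (hp2 T).2 ⟨i0, by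
    have h1 := hmX T hT
    change eval₂ kv _ (X i0) ≠ 0 at h1
    rw [eval₂_X] at h1
    exact h1⟩)
  obtain ⟨Ω, iΩ, α, p1, e1, e2, e3, e4⟩ := spec_curve kv (Θ.comp Φ) v ⟨i0, hi0⟩
    (fun i => (p' i).eval 1) (fun G a hG hz => by
      by_contra hne'
      obtain ⟨m, hm⟩ := hdiv ⟨G, ⟨a, hG⟩, hne'⟩
      rw [hlim] at hz
      obtain ⟨-, h2⟩ := theta_ne hΘ (fun (_ : Unit) T => eval₂ kv (fun i => (p T i).eval 1) G) m
        (fun T hT => ⟨(), hm T hT⟩)
      exact h2 hz) p' 1 one_ne_zero (fun j => (one_mul _).symm) D k1 FA hFAh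
    (fun i => k3 k Φ (FA i) (fun T => by
      rw [hΦT]
      have h1 := (hp2 T).1 i
      rw [← hFA, aeval_def, eval₂_map] at h1
      exact h1)) hnc'
  obtain ⟨p2, e5, e6, e7, i1, j1, e8⟩ := spec_gen α kv FA p1 e2 e4
  refine ⟨p2, fun i => (e5 i).trans (e1 i), ⟨fun i => ?_, nc_of e8⟩, fun j => e7 j _ (e3 j)⟩
  rw [← hFA, aeval_def, eval₂_map]
  exact e6 i

end Pool.Agent.R393.UH
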