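import Mathlib

/-!
A change of the parameter which moves a pole to infinity.
-/

set_option autoImplicit false

namespace Pool.Agent.R393.UH

open Polynomial

theorem eval_reflect {K : Type} [Field K] {N : ℕ} {f : K[X]} (hf : f.natDegree ≤ N) {y : K}
    (hy : y ≠ 0) : (reflect N f).eval y = y ^ N * f.eval y⁻¹ := by
  let _ : Invertible (y⁻¹) := invertibleOfNonzero (inv_ne_zero hy)
  have h := eval₂_reflect_mul_pow (RingHom.id K) y⁻¹ N f hf
  have h1 : (⅟(y⁻¹) : K) = y := by rw [invOf_eq_inv, inv_inv]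
  rw [h1] at h
  change (reflect N f).eval y * y⁻¹ ^ N = f.eval y⁻¹ at h
  rw [← h, inv_pow, mul_comm, mul_assoc, inv_mul_cancel₀ (pow_ne_zero _ hy), mul_one]

theorem natDegree_reflect {K : Type} [Field K] {N : ℕ} {f : K[X]} (hf : f.natDegree ≤ N) :
    (reflect N f).natDegree ≤ N - f.natTrailingDegree := by
  rw [natDegree_le_iff_coeff_eq_zero]
  intro j hj
  rw [coeff_reflect]
  rcases le_or_gt j N with h | h
  · rw [revAt_le h]
    exact coeff_eq_zero_of_lt_natTrailingDegree (by omega)
  · rw [revAt_eq_self_of_lt h]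
    exact coeff_eq_zero_of_natDegree_lt (by omega)

theorem le_natDegree_reflect {K : Type} [Field K] {N : ℕ} {f : K[X]} (hf : f.natDegree ≤ N)
    (hf0 : f ≠ 0) : N - f.natTrailingDegree ≤ (reflect N f).natDegree := by
  apply le_natDegree_of_ne_zero
  have h1 : f.natTrailingDegree ≤ N := (natTrailingDegree_le_natDegree f).trans hf
  rw [coeff_reflect, revAt_le (Nat.sub_le _ _), Nat.sub_sub_self h1]
  exact trailingCoeff_nonzero_iff_nonzero.2 hf0

theorem mobius {K : Type} [Field K] [IsAlgClosed K] {n : ℕ} (a : Fin (n + 1) → K[X])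
    (i0 i1 : Fin (n + 1)) (N : ℕ) (hN : ∀ i, (a i).natDegree ≤ N) (h0 : (a i0).eval 0 = 1)
    (h1 : ∀ i, i ≠ i0 → (a i).eval 0 = 0) (hi1 : a i1 ≠ 0) (hne : i1 ≠ i0) :
    ∃ (a' : Fin (n + 1) → K[X]) (i2 : Fin (n + 1)), (∀ i, (a' i).natDegree ≤ N) ∧
      (a' i0).eval 0 = 1 ∧ (∀ i, i ≠ i0 → (a' i).eval 0 = 0) ∧
      (a' i0).natDegree < (a' i2).natDegree ∧
      ∃ S : Finset K, ∀ w, w ∉ S → ∃ u μ : K, ∀ i, (a' i).eval w = μ * (a i).eval u := by
  classical
  have ha0 : a i0 ≠ 0 := by
    intro h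
    rw [h, eval_zero] at h0
    exact zero_ne_one h0
  by_cases hdvd : a i0 ∣ a i1
  · obtain ⟨g, hg⟩ := hdvd
    have hg0 : g ≠ 0 := by
      rintro rfl
      exact hi1 (by rw [hg, mul_zero])
    have hge : g.eval 0 = 0 := by
      have h2 := h1 i1 hne
      rw [hg, eval_mul, h0, one_mul] at h2
      exact h2
    have hgd : g.natDegree ≠ 0 := by
      intro h2
      rw [natDegree_eq_zero] at h2
      obtain ⟨c, rfl⟩ := h2
      rw [eval_C] at hge
      rw [hge, C_0] at hg0
      exact hg0 rfl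
    refine ⟨a, i1, hN, h0, h1, ?_, ∅, fun w _ => ⟨w, 1, fun i => (one_mul _).symm⟩⟩
    rw [hg, natDegree_mul ha0 hg0]
    omega
  · obtain ⟨z, hz⟩ : ∃ z, (a i1).rootMultiplicity z < (a i0).rootMultiplicity z := by
      by_contra hcon
      push Not at hcon
      apply hdvd
      rw [IsAlgClosed.dvd_iff_roots_le_roots ha0 hi1, Multiset.le_iff_count]
      intro z
      rw [count_roots, count_roots]
      exact hcon z
    have hz0 : z ≠ 0 := by
      rintro rfl
      have h2 : 0 < (a i0).rootMultiplicity 0 := (Nat.zero_le _).trans_lt hz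
      rw [rootMultiplicity_pos ha0] at h2
      rw [IsRoot.def, h0] at h2
      exact one_ne_zero h2
    let f : Fin (n + 1) → K[X] := fun i => (a i).comp (X + C z)
    have hfd : ∀ i, (f i).natDegree ≤ N := by
      intro i
      change ((a i).comp (X + C z)).natDegree ≤ N
      rw [natDegree_comp, natDegree_X_add_C, mul_one]
      exact hN i
    have hf0 : ∀ i, a i ≠ 0 → f i ≠ 0 := by
      intro i hi h2
      apply hi
      have h3 : ((a i).comp (X + C z)).comp (X - C z) = 0 := by
        change (f i).comp (X - C z) = 0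
        rw [h2, zero_comp]
      rw [comp_assoc] at h3
      simpa using h3
    let y0 : K := -z⁻¹
    have hy0 : y0 ≠ 0 := neg_ne_zero.2 (inv_ne_zero hz0)
    let ν : K := (y0 ^ N)⁻¹
    have hν : ν ≠ 0 := inv_ne_zero (pow_ne_zero _ hy0)
    let a' : Fin (n + 1) → K[X] := fun i => C ν * (reflect N (f i)).comp (X + C y0)
    have hev : ∀ w, w + y0 ≠ 0 → ∀ i, (a' i).eval w =
        (ν * (w + y0) ^ N) * (a i).eval (z + (w + y0)⁻¹) := by
      intro w hw i
      change (C ν * (reflect N (f i)).comp (X + C y0)).eval w = _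
      rw [eval_mul, eval_C, eval_comp, eval_add, eval_X, eval_C, eval_reflect (hfd i) hw]
      change ν * ((w + y0) ^ N * ((a i).comp (X + C z)).eval (w + y0)⁻¹) = _
      rw [eval_comp, eval_add, eval_X, eval_C, add_comm _ z, mul_assoc]
    have hev0 : ∀ i, (a' i).eval 0 = (a i).eval 0 := by
      intro i
      rw [hev 0 (by rw [zero_add]; exact hy0), zero_add]
      have h2 : z + y0⁻¹ = 0 := by
        change z + (-z⁻¹)⁻¹ = 0
        rw [inv_neg, inv_inv, add_neg_cancel]
      have h3 : ν * y0 ^ N = 1 := inv_mul_cancel₀ (pow_ne_zero _ hy0)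
      rw [h2, h3, one_mul]
    have hdeg : ∀ i, (a' i).natDegree = (reflect N (f i)).natDegree := by
      intro i
      change (C ν * (reflect N (f i)).comp (X + C y0)).natDegree = _
      rw [natDegree_C_mul hν, natDegree_comp, natDegree_X_add_C, mul_one]
    refine ⟨a', i1, fun i => ?_, ?_, fun i hi => ?_, ?_, {-y0}, fun w hw => ?_⟩
    · rw [hdeg]
      exact (natDegree_reflect (hfd i)).trans (Nat.sub_le _ _)
    · rw [hev0, h0]
    · rw [hev0, h1 i hi]
    · rw [hdeg, hdeg]
      rw [rootMultiplicity_eq_natTrailingDegree, rootMultiplicity_eq_natTrailingDegree] at hz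
      have h2 := natDegree_reflect (hfd i0)
      have h3 := le_natDegree_reflect (hfd i1) (hf0 i1 hi1)
      have h4 : (f i0).natTrailingDegree ≤ N := (natTrailingDegree_le_natDegree _).trans (hfd i0)
      change (f i1).natTrailingDegree < (f i0).natTrailingDegree at hz
      omega
    · rw [Finset.mem_singleton] at hw
      exact ⟨_, _, hev w (fun h => hw (eq_neg_of_add_eq_zero_left h))⟩

end Pool.Agent.R393.UH
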