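import Pool.Agent.R393.UH.Gen
import Pool.Agent.R393.UF.Core
import Pool.Agent.R393.UO.Num

/-!
All but boundedly many points of a family given by iterated recurrences lie on rational curves of
bounded degree.
-/

set_option autoImplicit false

namespace Pool.Agent.R393.UH

open MvPolynomial Pool.Agent.Y377.EL Pool.Agent.Y377.IL Pool.Agent.Y377.IR Pool.Agent.Y377.ST
open Pool.Agent.R393.UO Pool.Agent.R393.UF
open Pool.Agent.R849.PR (RatIn)

/-- Over some extension of `L`, a nonconstant rational curve in `X : F = 0`, given by polynomials of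
degree at most `D`, passes through the point with the coordinates `v`. -/
def OnRatE {L : Type} [Field L] {n : ℕ} {ι : Type} (D : ℕ)
    (F : ι → MvPolynomial (Fin (n + 1)) L) (v : Fin (n + 1) → L) : Prop :=
  ∃ (M : Type) (_ : Field M) (_ : Algebra L M) (p : Fin (n + 1) → Polynomial M),
    (∀ i, (p i).natDegree ≤ D) ∧ (∀ i, aeval p (F i) = 0) ∧
    (∀ j, (p j).eval 1 = algebraMap L M (v j)) ∧
    ∃ i j, p i * Polynomial.C ((p j).eval 1) ≠ p j * Polynomial.C ((p i).eval 1)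

/-- The points with the homogeneous coordinates `x(h)`, `x(h) ≠ 0`, through which no nonconstant
rational curve in `X : F = 0` of degree at most `D` passes (see `OnRatE`). -/
def offRat {L : Type} [Field L] {H ι : Type} {n : ℕ} (D : ℕ)
    (F : ι → MvPolynomial (Fin (n + 1)) L) (x : H → Fin (n + 1) → L) :
    Set (Projectivization L (Fin (n + 1) → L)) :=
  {P | ∃ (h : H) (h0 : x h ≠ 0), ¬ OnRatE D F (x h) ∧ P = Projectivization.mk L (x h) h0}

/-- members with different points -/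
theorem mem_of_card {L H : Type} [Field L] {n : ℕ} {x : H → Fin (n + 1) → L} (Pr : H → Prop)
    {T : ℕ} (h : (T : ℕ∞) < ({P | ∃ (h : H) (h0 : x h ≠ 0), Pr h ∧
      P = Projectivization.mk L (x h) h0} : Set (Projectivization L (Fin (n + 1) → L))).encard) :
    ∃ hs : ℕ → H, (∀ j, j ≤ T → Pr (hs j)) ∧ (∀ j, j ≤ T → x (hs j) ≠ 0) ∧
      ∀ j j', j ≤ T → j' ≤ T → j ≠ j' →
        ∃ u v, x (hs j) u * x (hs j') v ≠ x (hs j) v * x (hs j') u := by
  classical
  obtain ⟨P, hP1, hP2⟩ := exists_pts h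
  obtain ⟨h00, -⟩ := hP1 0 (Nat.zero_le _)
  have hex : ∀ j, ∃ h : H, j ≤ T → ∃ h0 : x h ≠ 0, Pr h ∧
      P j = Projectivization.mk L (x h) h0 := by
    intro j
    by_cases hj : j ≤ T
    · obtain ⟨h, h0, h1, h2⟩ := hP1 j hj
      exact ⟨h, fun _ => ⟨h0, h1, h2⟩⟩
    · exact ⟨h00, fun h1 => absurd h1 hj⟩
  choose hs hhs using hex
  refine ⟨hs, fun j hj => (hhs j hj).2.1, fun j hj => (hhs j hj).1, fun j j' hj hj' hne => ?_⟩
  by_contra hcon
  push Not at hcon
  obtain ⟨h0, -, h1⟩ := hhs j hj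
  obtain ⟨h0', -, h1'⟩ := hhs j' hj'
  apply hne
  apply hP2 j j' hj hj'
  rw [h1, h1', Projectivization.mk_eq_mk_iff']
  obtain ⟨v0, hv0⟩ := Function.ne_iff.1 h0'
  have hv0' : x (hs j') v0 ≠ 0 := hv0
  refine ⟨x (hs j) v0 / x (hs j') v0, ?_⟩
  funext u
  rw [Pi.smul_apply, smul_eq_mul]
  have h2 := hcon u v0
  rw [div_mul_eq_mul_div, ← h2, mul_div_assoc, div_self hv0', mul_one]

/-- the converse -/
theorem card_of_mem {L H : Type} [Field L] {n : ℕ} {x : H → Fin (n + 1) → L} (Pr : H → Prop)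
    {T : ℕ} (hs : ℕ → H) (h1 : ∀ j, j ≤ T → Pr (hs j)) (h2 : ∀ j, j ≤ T → x (hs j) ≠ 0)
    (h3 : ∀ j j', j ≤ T → j' ≤ T → j ≠ j' →
        ∃ u v, x (hs j) u * x (hs j') v ≠ x (hs j) v * x (hs j') u) :
    (T : ℕ∞) < ({P | ∃ (h : H) (h0 : x h ≠ 0), Pr h ∧
      P = Projectivization.mk L (x h) h0} : Set (Projectivization L (Fin (n + 1) → L))).encard := by
  classical
  let f : Fin (T + 1) → Projectivization L (Fin (n + 1) → L) := fun j =>
    Projectivization.mk L (x (hs j)) (h2 j (Nat.lt_succ_iff.1 j.2))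
  have hf : Function.Injective f := by
    intro j j' hjj
    by_contra hne
    obtain ⟨u, v, huv⟩ := h3 j j' (Nat.lt_succ_iff.1 j.2) (Nat.lt_succ_iff.1 j'.2)
      (fun h => hne (Fin.ext h))
    apply huv
    obtain ⟨a, ha⟩ := (Projectivization.mk_eq_mk_iff' _ _ _ _ _).1 hjj
    rw [← ha]
    simp only [Pi.smul_apply, smul_eq_mul]
    ring
  have h4 : Set.range f ⊆ {P | ∃ (h : H) (h0 : x h ≠ 0), Pr h ∧
      P = Projectivization.mk L (x h) h0} := by
    rintro _ ⟨j, rfl⟩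
    exact ⟨hs j, _, h1 j (Nat.lt_succ_iff.1 j.2), rfl⟩
  have h5 : (Set.range f).encard = ((T + 1 : ℕ) : ℕ∞) := by
    rw [← Set.image_univ, hf.encard_image, Set.encard_univ, ENat.card_eq_coe_fintype_card,
      Fintype.card_fin]
  have h6 := Set.encard_le_encard h4
  rw [h5] at h6
  refine lt_of_lt_of_le ?_ h6
  exact_mod_cast Nat.lt_succ_self T

/-- **The uniform bound over the complex numbers.** -/
theorem corePts {n : ℕ} {ι : Type} [Fintype ι] (dF : ι → ℕ) (s r e : ℕ) :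
    ∃ T : ℕ, ∀ (F : ι → MvPolynomial (Fin (n + 1)) ℂ), (∀ i, (F i).IsHomogeneous (dF i)) →
      ∀ (H : Type) [Group H] (x : H → Fin (n + 1) → ℂ), IterVec s r e x →
        (∀ h i, aeval (x h) (F i) = 0) → (offRat T F x).encard ≤ T := by
  classical
  by_contra hcon
  have hC : ∀ T : ℕ, ∃ (F : ι → MvPolynomial (Fin (n + 1)) ℂ) (H : Type) (_ : Group H)
      (x : H → Fin (n + 1) → ℂ) (hs : ℕ → H), (∀ i, (F i).IsHomogeneous (dF i)) ∧
        IterVec s r e x ∧ (∀ h i, aeval (x h) (F i) = 0) ∧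
        (∀ j, j ≤ T → ¬ OnRatE T F (x (hs j))) ∧ (∀ j, j ≤ T → x (hs j) ≠ 0) ∧
        ∀ j j', j ≤ T → j' ≤ T → j ≠ j' →
          ∃ u v, x (hs j) u * x (hs j') v ≠ x (hs j) v * x (hs j') u := by
    intro T
    by_contra h1
    apply hcon
    refine ⟨T, fun F hF H _ x hx hX => ?_⟩
    by_contra h2
    obtain ⟨hs, h3, h4, h5⟩ := mem_of_card (fun h => ¬ OnRatE T F (x h)) (not_le.1 h2)
    exact h1 ⟨F, H, inferInstance, x, hs, hF, hx, hX, h3, h4, h5⟩
  choose F Hs iH x hs hF hx hX hoff h0 hnp using hC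
  obtain ⟨Θ, hΘ⟩ := Pool.Agent.Y455.ST.t_THETA
  let xs : (∀ i, Hs i) → Fin (n + 1) → ℂ := fun h j => Θ fun i => x i (h i) j
  have hxs : IterVec s r e xs := (IterVec.prod hx).map Θ
  let Fl : ι → MvPolynomial (Fin (n + 1)) (ℕ → ℂ) := fun i => tld (dF i) fun T => F T i
  have hFlm : ∀ i T, map (Pi.evalRingHom (fun _ : ℕ => ℂ) T) (Fl i) = F T i := fun i T =>
    tld_map (F := fun T => F T i) (fun T => hF T i) T
  have hFlh : ∀ i, (Fl i).IsHomogeneous (dF i) := fun i => tld_hom _ _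
  have key : ∀ (P : MvPolynomial (Fin (n + 1)) (ℕ → ℂ)) (h : ∀ i, Hs i),
      eval (xs h) (map Θ P) = Θ fun T =>
        aeval (x T (h T)) (map (Pi.evalRingHom (fun _ : ℕ => ℂ) T) P) := by
    intro P h
    have h1 := map_aevalE Θ (fun j T => x T (h T) j) P
    have h2 : (aeval (fun (j : Fin (n + 1)) T => x T (h T) j) P : ℕ → ℂ) = fun T =>
        aeval (x T (h T)) (map (Pi.evalRingHom (fun _ : ℕ => ℂ) T) P) := by
      funext T
      exact map_aevalE (Pi.evalRingHom (fun _ : ℕ => ℂ) T) (fun j T => x T (h T) j) P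
    rw [h2, MvPolynomial.aeval_eq_eval] at h1
    exact h1.symm
  let a : ℕ → ∀ i, Hs i := fun m i => hs i m
  have hzero : ∀ i h, eval (xs h) (map Θ (Fl i)) = 0 := by
    intro i h
    rw [key]
    have h1 : (fun T => aeval (x T (h T)) (map (Pi.evalRingHom (fun _ : ℕ => ℂ) T) (Fl i))) = 0 := by
      funext T
      rw [hFlm]
      exact hX T (h T) i
    rw [h1, map_zero]
  have hxne : ∀ m, ∃ l, xs (a m) l ≠ 0 := fun m =>
    theta_ne hΘ (fun l i => x i (a m i) l) m fun i hi => Function.ne_iff.1 (h0 i m hi)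
  have hcross : ∀ m m', m ≠ m' → ∃ u v, xs (a m) u * xs (a m') v ≠ xs (a m) v * xs (a m') u := by
    intro m m' hmm
    obtain ⟨⟨u, v⟩, h1⟩ := theta_ne hΘ (fun (p : Fin (n + 1) × Fin (n + 1)) i =>
      x i (a m i) p.1 * x i (a m' i) p.2 - x i (a m i) p.2 * x i (a m' i) p.1) (max m m')
      (fun i hi => by
        obtain ⟨u, v, h1⟩ := hnp i m m' ((le_max_left _ _).trans hi) ((le_max_right _ _).trans hi) hmm
        exact ⟨(u, v), sub_ne_zero.2 h1⟩)
    refine ⟨u, v, fun h2 => h1 ?_⟩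
    have h3 : (fun i => x i (a m i) u * x i (a m' i) v - x i (a m i) v * x i (a m' i) u) =
        (fun i => x i (a m i) u) * (fun i => x i (a m' i) v) -
          (fun i => x i (a m i) v) * (fun i => x i (a m' i) u) := rfl
    change Θ (fun i => x i (a m i) u * x i (a m' i) v - x i (a m i) v * x i (a m' i) u) = 0
    rw [h3, map_sub, map_mul, map_mul]
    exact sub_eq_zero.2 h2
  obtain ⟨R, hR, hmem⟩ := hxs.tow
  obtain ⟨Nn, hn, hfi, hres⟩ := exists_res fhyp hR
  have hq : Finite ((∀ i, Hs i) ⧸ Nn) := inferInstance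
  obtain ⟨m, m', hmm, hmk⟩ := Finite.exists_ne_map_eq_of_infinite
    fun m : ℕ => (QuotientGroup.mk (a m) : (∀ i, Hs i) ⧸ Nn)
  have hco : a m' * (a m)⁻¹ ∈ Nn := hn.mem_comm (QuotientGroup.eq.1 hmk)
  obtain ⟨l, hl⟩ := hxne m
  obtain ⟨u, v, huv⟩ := hcross m m' hmm
  obtain ⟨K, i1, i2, Γ, ρ, hρ⟩ := hres (a m)
  obtain ⟨M, j1, j2, q, hq1, hq2, hq3⟩ := rat_point hmem hρ hl hco huv
  have hcz : CharZero M := charZero_of_injective_algebraMap (algebraMap ℂ M).injective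
  have hqF : ∀ i, aeval q (map Θ (Fl i)) = 0 := by
    intro i
    rw [hq1 _ (dF i) ((hFlh i).map Θ)]
    intro g _
    exact hzero i _
  obtain ⟨d, p, hd, hp1, hp2, hp3⟩ := uni_pt (k := ℂ) (fun i => map Θ (Fl i))
    (fun i => ⟨dF i, (hFlh i).map Θ⟩) q hqF (by obtain ⟨i, hi⟩ := hq3; exact ⟨i, l, hq2, hi⟩)
  let P : Fin (n + 1) → ℕ → ℂ := fun j T => x T (a m T) j
  obtain ⟨N, hN⟩ : ∃ N, ∀ i, (p i).natDegree ≤ N := ⟨∑ i, (p i).natDegree, fun i =>
    Finset.single_le_sum (f := fun i => (p i).natDegree) (fun _ _ => Nat.zero_le _)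
      (Finset.mem_univ i)⟩
  obtain ⟨Ω, iΩ, α, p1, -, k2, k3, k4⟩ := spec_curve (thK Θ)
    ((algebraMap ℂ (RatFunc M)).comp Θ) (fun j => thK Θ (P j))
    ⟨l, fun h1 => hl (by
      have h2 := congrArg Subtype.val h1
      exact h2)⟩ q
    (fun G e hG h1 => by
      have h2 : aeval q (map Θ G) = 0 := by
        rw [aeval_def, eval₂_map]
        exact h1
      rw [hq1 _ e (hG.map Θ)] at h2
      have h3 := h2 1 Nn.one_mem
      rw [one_mul, eval_map] at h3
      apply Subtype.ext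
      change (kap Θ).subtype (eval₂ (thK Θ) (fun j => thK Θ (P j)) G) = 0
      rw [hom_eval₂]
      exact h3)
    p d hd hp2 N hN Fl (fun i => ⟨dF i, hFlh i⟩)
    (fun i => by
      have h1 := hp1 i
      rw [aeval_def, eval₂_map] at h1
      exact h1) hp3
  obtain ⟨p2, -, k5, k6, k7⟩ := spec_gen α (thK Θ) Fl p1 k2 k4
  obtain ⟨D, hD⟩ := transferP (κ := kap Θ) hΘ (thK Θ) thK_surj (kap Θ).subtype (fun a => rfl) Fl P
    p2 (fun i => by
      rw [aeval_def, eval₂_map]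
      exact k5 i) (fun j => k6 j _ (k3 j)) k7
  obtain ⟨T, g, hT, g1, g2, g3, i0, j0, g4⟩ := hD (max D m)
  apply hoff T m ((le_max_right D m).trans hT)
  refine ⟨ℂ, inferInstance, inferInstance, g, fun i => (g1 i).trans ((le_max_left D m).trans hT),
    fun i => ?_, g3, i0, j0, g4⟩
  rw [← hFlm]
  exact g2 i

end Pool.Agent.R393.UH
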