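import Pool.Agent.R393.UH.Pts

/-!
All but boundedly many points lie on rational curves of bounded degree: fields of characteristic
zero.
-/

set_option autoImplicit false

namespace Pool.Agent.R393.UH

open MvPolynomial Pool.Agent.Y377.ST Pool.Agent.R393.UO Pool.Agent.R393.UF
open Pool.Agent.R849.PR (RatIn)

/-- the bound -/
noncomputable def TT (n d s r e : ℕ) : ℕ :=
  Classical.choose (corePts (n := n) (ι := JJ n d) (fun a => (a.1 : ℕ)) s r e)

theorem TT_spec (n d s r e : ℕ) : ∀ F : JJ n d → MvPolynomial (Fin (n + 1)) ℂ,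
      (∀ i, (F i).IsHomogeneous (i.1 : ℕ)) →
      ∀ (H : Type) [Group H] (x : H → Fin (n + 1) → ℂ), IterVec s r e x →
        (∀ h i, aeval (x h) (F i) = 0) → (offRat (TT n d s r e) F x).encard ≤ TT n d s r e :=
  Classical.choose_spec (corePts (n := n) (ι := JJ n d) (fun a => (a.1 : ℕ)) s r e)

/-- rational curves and composita -/
theorem onRatE_comp {K L E : Type} [Field K] [Field L] [Field E] (i : K →+* L) (τ : K →+* E)
    {n : ℕ} {ι : Type} {D : ℕ} (F : ι → MvPolynomial (Fin (n + 1)) K) (v : Fin (n + 1) → K)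
    (h : OnRatE D (fun a => map τ (F a)) (fun j => τ (v j))) :
    OnRatE D (fun a => map i (F a)) (fun j => i (v j)) := by
  obtain ⟨M, i1, i2, p, h1, h2, h3, i0, j0, h4⟩ := h
  obtain ⟨Ω, iΩ, α, β, hαβ⟩ := amalg i ((algebraMap E M).comp τ) (fun a => by
    rw [map_eq_zero, map_eq_zero])
  let _ : Algebra L Ω := α.toAlgebra
  refine ⟨Ω, iΩ, inferInstance, fun j => (p j).map β, fun j => Polynomial.natDegree_map_le.trans (h1 j),
    fun a => ?_, fun j => ?_, i0, j0, fun h5 => h4 ?_⟩
  · have h5 := congrArg (Polynomial.map β) (h2 a)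
    rw [Polynomial.map_zero, aeval_def, eval₂_map] at h5
    rw [aeval_def, eval₂_map, ← h5]
    have e1 : (algebraMap L (Polynomial Ω)).comp i =
        Polynomial.C.comp (β.comp ((algebraMap E M).comp τ)) := by
      refine RingHom.ext fun c => ?_
      change Polynomial.C (α (i c)) = Polynomial.C (β _)
      rw [hαβ]
    have e2 : (algebraMap E (Polynomial M)).comp τ = Polynomial.C.comp ((algebraMap E M).comp τ) :=
      rfl
    rw [e1, e2, map_eval₂]
  · rw [eval_one_map', h3]
    exact (hαβ (v j)).symm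
  · apply Polynomial.map_injective β β.injective
    rw [Polynomial.map_mul, Polynomial.map_mul, Polynomial.map_C, Polynomial.map_C,
      ← eval_one_map' β (p j0), ← eval_one_map' β (p i0)]
    exact h5

theorem onRatE_span {L : Type} [Field L] {n : ℕ} {ι ι' : Type} {D : ℕ}
    {F : ι → MvPolynomial (Fin (n + 1)) L} {f : ι' → MvPolynomial (Fin (n + 1)) L}
    {v : Fin (n + 1) → L} (h : OnRatE D f v) (hF : ∀ i, F i ∈ Submodule.span L (Set.range f)) :
    OnRatE D F v := by
  obtain ⟨M, i1, i2, p, h1, h2, h3, h4⟩ := h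
  refine ⟨M, i1, i2, p, h1, fun i => ?_, h3, h4⟩
  exact aeval_span f p h2 (hF i)

/-- **The uniform bound over fields of characteristic zero.** -/
theorem genPts {L : Type} [Field L] [CharZero L] {n d : ℕ} {ι : Type}
    (F : ι → MvPolynomial (Fin (n + 1)) L) (hF : ∀ i, ∃ e, e ≤ d ∧ (F i).IsHomogeneous e)
    (s r e : ℕ) (H : Type) [Group H] (x : H → Fin (n + 1) → L)
    (hx : IterVec s r e x) (hX : ∀ h i, aeval (x h) (F i) = 0) :
    (offRat (TT n d s r e) F x).encard ≤ TT n d s r e := by
  classical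
  by_contra hcon
  obtain ⟨hs, m1, m2, m3⟩ := mem_of_card (fun h => ¬ OnRatE (TT n d s r e) F (x h)) (not_le.1 hcon)
  obtain ⟨f, f1, f2, f3⟩ := reduce F hF
  let φ : FreeGroup ℕ →* H := FreeGroup.lift hs
  have hφ : ∀ j, φ (FreeGroup.of j) = hs j := fun j => FreeGroup.lift_apply_of
  have hcF : Countable (FreeGroup ℕ) := by
    unfold FreeGroup
    infer_instance
  -- a countable field of definition
  let S0 : Set L := ⋃ a : JJ n d, Set.range (fun m => coeff m (f a))
  have hS0 : S0.Countable := Set.countable_iUnion fun a => Set.countable_range _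
  obtain ⟨K, hK, hSK, x0, hx0, hxx⟩ := IterVec.descend (IterVec.comap φ hx) S0 hS0
  have hlift : ∀ P : MvPolynomial (Fin (n + 1)) L, (∀ m, coeff m P ∈ K) →
      ∃ P0 : MvPolynomial (Fin (n + 1)) K, map K.subtype P0 = P := by
    intro P hP
    refine ⟨∑ m ∈ P.support, monomial m ⟨coeff m P, hP m⟩, ?_⟩
    rw [map_sum]
    conv_rhs => rw [P.as_sum]
    refine Finset.sum_congr rfl fun m _ => ?_
    rw [map_monomial]
    rfl
  choose f0 hf0 using fun a => hlift (f a) fun m => hSK (Set.mem_iUnion.2 ⟨a, ⟨m, rfl⟩⟩)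
  have hhom : ∀ (P : MvPolynomial (Fin (n + 1)) K) (e : ℕ), (map K.subtype P).IsHomogeneous e →
      P.IsHomogeneous e := by
    intro P e hP m hm
    apply hP
    rw [coeff_map]
    exact (map_ne_zero K.subtype).2 hm
  obtain ⟨τ⟩ := Pool.Agent.Y899.ILPER.emb_complex K
  have hev0 : ∀ (P : MvPolynomial (Fin (n + 1)) K) h,
      K.subtype (aeval (x0 h) P) = aeval (x (φ h)) (map K.subtype P) := by
    intro P h
    rw [map_aevalE]
    have h1 : (fun i => K.subtype (x0 h i)) = x (φ h) := funext fun j => hxx h j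
    rw [h1]
  have h1 := TT_spec n d s r e (fun a => map τ (f0 a))
    (fun a => (hhom (f0 a) _ (by rw [hf0]; exact f1 a)).map τ) (FreeGroup ℕ)
    (fun h j => τ (x0 h j)) (hx0.map τ) (by
      intro h a
      rw [← map_aevalE]
      have h2 : aeval (x0 h) (f0 a) = 0 := by
        apply K.subtype.injective
        rw [hev0, hf0, map_zero]
        exact aeval_span F (x (φ h)) (hX (φ h)) (f2 a)
      rw [h2, map_zero])
  refine absurd (card_of_mem (x := fun h j => τ (x0 h j))
    (fun h => ¬ OnRatE (TT n d s r e) (fun a => map τ (f0 a)) (fun j => τ (x0 h j)))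
    (T := TT n d s r e) FreeGroup.of ?_ ?_ ?_) (not_lt.2 h1)
  · intro j hj h2
    apply m1 j hj
    have h3 := onRatE_comp K.subtype τ f0 (x0 (FreeGroup.of j)) h2
    have h4 : (fun a => map K.subtype (f0 a)) = f := funext hf0
    have h5 : (fun u => K.subtype (x0 (FreeGroup.of j) u)) = x (hs j) := by
      funext u
      have h6 := hxx (FreeGroup.of j) u
      rw [hφ] at h6
      exact h6
    rw [h4, h5] at h3
    exact onRatE_span h3 f3
  · intro j hj h2
    apply m2 j hj
    funext u
    have h3 := congrFun h2 u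
    have h4 : x0 (FreeGroup.of j) u = 0 := (map_eq_zero τ).1 h3
    have h5 := hxx (FreeGroup.of j) u
    rw [h4, hφ] at h5
    exact h5.symm
  · intro j j' hj hj' hne
    obtain ⟨u, v, huv⟩ := m3 j j' hj hj' hne
    refine ⟨u, v, fun h2 => huv ?_⟩
    rw [← map_mul, ← map_mul] at h2
    have h3 := congrArg K.subtype (τ.injective h2)
    rw [map_mul, map_mul] at h3
    change ((x0 (FreeGroup.of j) u : K) : L) * (x0 (FreeGroup.of j') v : K) =
      (x0 (FreeGroup.of j) v : K) * (x0 (FreeGroup.of j') u : K) at h3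
    rw [hxx, hxx, hxx, hxx, hφ, hφ] at h3
    exact h3

/-- All families on `X : F = 0`, indexed by groups and given by iterated recurrences of complexity
`(s, r, e)`, over all extensions `L` of `k`, have at most `B n d s r e` points through which no
nonconstant rational curve in `X` of degree at most `B n d s r e` passes. -/
def PointsOnRat {k : Type} [Field k] {ι : Type} {n : ℕ} (B : ℕ → ℕ → ℕ → ℕ → ℕ → ℕ) (d : ℕ)
    (F : ι → MvPolynomial (Fin (n + 1)) k) : Prop :=
  ∀ (s r e : ℕ) (L : Type) [Field L] [Algebra k L] (H : Type) [Group H]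
    (x : H → Fin (n + 1) → L), IterVec s r e x → (∀ h i, aeval (x h) (F i) = 0) →
    (offRat (B n d s r e) (fun i => map (algebraMap k L) (F i)) x).encard ≤ B n d s r e

theorem pointsOnRat {k : Type} [Field k] [CharZero k] {ι : Type} {n d : ℕ}
    (F : ι → MvPolynomial (Fin (n + 1)) k) (hF : ∀ i, ∃ e, e ≤ d ∧ (F i).IsHomogeneous e) :
    PointsOnRat TT d F := by
  intro s r e L _ _ H _ x hx hX
  have : CharZero L := charZero_of_injective_algebraMap (algebraMap k L).injective
  exact genPts (d := d) (fun a => map (algebraMap k L) (F a))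
    (fun i => by obtain ⟨e, he, hi⟩ := hF i; exact ⟨e, he, hi.map _⟩) s r e H x hx
    (fun h i => by rw [aeval_map_algebraMap]; exact hX h i)

theorem nc_ofE {K : Type} [Field K] [Infinite K] {n : ℕ} {p : Fin (n + 1) → Polynomial K}
    {i j : Fin (n + 1)}
    (h : p i * Polynomial.C ((p j).eval 1) ≠ p j * Polynomial.C ((p i).eval 1)) :
    ∃ t s i j, (p i).eval t * (p j).eval s ≠ (p j).eval t * (p i).eval s := by
  by_contra h7
  push Not at h7
  apply h
  apply Polynomial.funext
  intro t
  rw [Polynomial.eval_mul, Polynomial.eval_mul, Polynomial.eval_C, Polynomial.eval_C]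
  exact h7 t 1 i j

theorem families_of_points {k : Type} [Field k] [CharZero k] {ι κ : Type} {n d : ℕ}
    {B : ℕ → ℕ → ℕ → ℕ → ℕ → ℕ}
    (F : ι → MvPolynomial (Fin (n + 1)) k) (G : κ → MvPolynomial (Fin (n + 1)) k)
    (hB : PointsOnRat B d F) (h : RatIn F G) : FamiliesBounded B d F G := by
  intro s r e L _ _ H _ x hx hX
  refine (Set.encard_le_encard ?_).trans (hB s r e L H x hx hX)
  rintro P ⟨g, h0, ⟨l, hl⟩, hP⟩
  refine ⟨g, h0, ?_, hP⟩
  rintro ⟨M, i1, i2, p, h1, h2, h3, i0, j0, h4⟩
  apply hl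
  let _ : Algebra k M := ((algebraMap L M).comp (algebraMap k L)).toAlgebra
  have hcz : CharZero M := charZero_of_injective_algebraMap (algebraMap k M).injective
  have e1 : ∀ Q : MvPolynomial (Fin (n + 1)) k,
      (aeval p (map (algebraMap k L) Q) : Polynomial M) = aeval p Q := by
    intro Q
    rw [aeval_def, eval₂_map, aeval_def]
    rfl
  have h5 := h M p (fun i => by rw [← e1]; exact h2 i) (nc_ofE h4) l
  have h6 := congrArg (Polynomial.eval 1) h5
  rw [← ev_poly, Polynomial.eval_zero] at h6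
  have h7 : (fun j => (p j).eval 1) = fun j => algebraMap L M (x g j) := funext h3
  rw [h7] at h6
  apply (algebraMap L M).injective
  rw [map_zero, ← h6, aeval_def, aeval_def, hom_eval₂]
  rfl

end Pool.Agent.R393.UH
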