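import Pool.Agent.R393.UF.Spec
import Pool.Agent.R393.UF.Amal
import Pool.Agent.R393.UH.Cross
import Pool.Agent.R393.UH.Mob

/-!
The reduction of a rational curve through a point.
-/

set_option autoImplicit false

namespace Pool.Agent.R393.UH

open MvPolynomial Pool.Agent.R393.UF

theorem eval_eval₂ {A K : Type} [CommRing A] [Field K] (β : A →+* K) {n : ℕ}
    (p : Fin n → Polynomial K) (G : MvPolynomial (Fin n) A) (w : K) :
    (eval₂ (Polynomial.C.comp β) p G).eval w = eval₂ β (fun i => (p i).eval w) G := by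
  have h := hom_eval₂ G (Polynomial.C.comp β) (Polynomial.evalRingHom w) p
  rw [Polynomial.coe_evalRingHom] at h
  rw [h]
  congr 1
  refine RingHom.ext fun a => ?_
  change (Polynomial.C (β a)).eval w = β a
  rw [Polynomial.eval_C]

theorem map_eval₂ {A B L : Type} [CommRing A] [CommRing B] [CommRing L] (β : A →+* B)
    (φ : B →+* L) {n : ℕ} (p : Fin n → Polynomial B) (G : MvPolynomial (Fin n) A) :
    (eval₂ (Polynomial.C.comp β) p G).map φ =
      eval₂ (Polynomial.C.comp (φ.comp β)) (fun j => (p j).map φ) G := by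
  rw [← Polynomial.coe_mapRingHom, hom_eval₂]
  congr 1
  refine RingHom.ext fun a => ?_
  change Polynomial.map φ (Polynomial.C (β a)) = Polynomial.C (φ (β a))
  rw [Polynomial.map_C]

theorem poly_zero_of {K : Type} [Field K] [Infinite K] (S : Finset K) (f : Polynomial K)
    (h : ∀ w, w ∉ S → f.eval w = 0) : f = 0 := by
  classical
  by_contra h0
  have h1 : (Set.univ : Set K) ⊆ ↑S ∪ {w | f.eval w = 0} := by
    intro w _
    by_cases hw : w ∈ S
    · exact Or.inl hw
    · exact Or.inr (h w hw)
  have h2 : {w | f.eval w = 0}.Finite := by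
    refine (f.roots.toFinset.finite_toSet).subset fun w hw => ?_
    rw [Finset.mem_coe, Multiset.mem_toFinset, Polynomial.mem_roots h0]
    exact hw
  exact Set.infinite_univ ((S.finite_toSet.union h2).subset h1)

/-- **The reduction of a rational curve.** -/
theorem reduceV {K : Type} [Field K] [IsAlgClosed K] (O : ValuationSubring K) {n : ℕ} {ι : Type}
    (F : ι → MvPolynomial (Fin (n + 1)) O) (hhom : ∀ j, ∃ e, (F j).IsHomogeneous e)
    (c : Fin (n + 1) → O) (i0 : Fin (n + 1)) (hc : c i0 = 1) (p : Fin (n + 1) → Polynomial K)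
    (N : ℕ) (hN : ∀ i, (p i).natDegree ≤ N) (hp0 : ∀ i, (p i).eval 0 = (c i : K))
    (hF : ∀ j, eval₂ (Polynomial.C.comp O.subtype) p (F j) = 0)
    (hnc : ∃ i, p i ≠ Polynomial.C (c i : K) * p i0) :
    ∃ p' : Fin (n + 1) → Polynomial (IsLocalRing.ResidueField O),
      (∀ i, (p' i).natDegree ≤ N) ∧
      (∀ j, eval₂ (Polynomial.C.comp (IsLocalRing.residue O)) p' (F j) = 0) ∧
      (∃ γ : IsLocalRing.ResidueField O, γ ≠ 0 ∧
        ∀ i, (p' i).eval 0 = γ * IsLocalRing.residue O (c i)) ∧
      ∃ i, p' i ≠ Polynomial.C (IsLocalRing.residue O (c i)) * p' i0 := by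
  classical
  let c' : Fin (n + 1) → O := fun i => if i = i0 then 0 else c i
  have hc'0 : c' i0 = 0 := if_pos rfl
  have hc' : ∀ i, i ≠ i0 → c' i = c i := fun i hi => if_neg hi
  let a : Fin (n + 1) → Polynomial K := fun i => p i - Polynomial.C (c' i : K) * p i0
  have ha0 : a i0 = p i0 := by
    change p i0 - Polynomial.C (c' i0 : K) * p i0 = p i0
    rw [hc'0, ZeroMemClass.coe_zero, Polynomial.C_0, zero_mul, sub_zero]
  have hpe : (p i0).eval 0 = 1 := by
    rw [hp0, hc]
    rfl
  obtain ⟨i1, hi1⟩ := hnc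
  have hne : i1 ≠ i0 := by
    rintro rfl
    apply hi1
    rw [hc]
    change p i1 = Polynomial.C (1 : K) * p i1
    rw [Polynomial.C_1, one_mul]
  obtain ⟨a', i2, hN', h0', h1', hdeg, S, hS⟩ := mobius a i0 i1 N (fun i => by
      refine (Polynomial.natDegree_sub_le _ _).trans (max_le (hN i) ?_)
      exact (Polynomial.natDegree_C_mul_le _ _).trans (hN i0))
    (by rw [ha0, hpe]) (fun i hi => by
      change (p i - Polynomial.C (c' i : K) * p i0).eval 0 = 0
      rw [Polynomial.eval_sub, Polynomial.eval_mul, Polynomial.eval_C, hpe, hp0, hc' i hi, mul_one,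
        sub_self])
    (by
      change p i1 - Polynomial.C (c' i1 : K) * p i0 ≠ 0
      rw [hc' i1 hne]
      exact sub_ne_zero.2 hi1) hne
  have hi2 : i2 ≠ i0 := by
    rintro rfl
    exact lt_irrefl _ hdeg
  obtain ⟨t, m0, ⟨i3, hi3⟩, m1, ht, k1, k2, k3, k4, k5, k6⟩ := crossing O.valuation
    (ι := {i : Fin (n + 1) // i ≠ i0}) (fun m => (a' i0).coeff m) (fun i m => (a' i.1).coeff m) N
    (by rw [Polynomial.coeff_zero_eq_eval_zero]; exact h0')
    (fun m hm => Polynomial.coeff_eq_zero_of_natDegree_lt ((hN' i0).trans_lt hm))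
    (fun i => by rw [Polynomial.coeff_zero_eq_eval_zero]; exact h1' i.1 i.2)
    (fun i m hm => Polynomial.coeff_eq_zero_of_natDegree_lt ((hN' i.1).trans_lt hm))
    ⟨i2, hi2⟩ (a' i2).natDegree (by
      change (a' i2).leadingCoeff ≠ 0
      rw [Polynomial.leadingCoeff_ne_zero]
      rintro h
      rw [h, Polynomial.natDegree_zero] at hdeg
      exact Nat.not_lt_zero _ hdeg)
    (fun m hm => Polynomial.coeff_eq_zero_of_natDegree_lt (hdeg.trans_le hm))
  set β : K := (a' i0).coeff m0 * t ^ m0 with hβ
  have hβ0 : β ≠ 0 := (Valuation.ne_zero_iff _).1 k6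
  have hvβ : O.valuation β⁻¹ * O.valuation β = 1 := by
    rw [← map_mul, inv_mul_cancel₀ hβ0, map_one]
  have hvβ' : O.valuation β⁻¹ ≠ 0 := (Valuation.ne_zero_iff _).2 (inv_ne_zero hβ0)
  -- the scaled curve
  obtain ⟨b, hb⟩ : ∃ b : Fin (n + 1) → Polynomial K, ∀ i, b i =
      Polynomial.C β⁻¹ * (a' i).comp (Polynomial.C t * Polynomial.X) := ⟨_, fun i => rfl⟩
  have hbc : ∀ i m, (b i).coeff m = β⁻¹ * ((a' i).coeff m * t ^ m) := by
    intro i m
    rw [hb, Polynomial.coeff_C_mul, Polynomial.comp_C_mul_X_coeff]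
  have hbe : ∀ i w, (b i).eval w = β⁻¹ * (a' i).eval (t * w) := by
    intro i w
    rw [hb, Polynomial.eval_mul, Polynomial.eval_C, Polynomial.eval_comp, Polynomial.eval_mul,
      Polynomial.eval_C, Polynomial.eval_X]
  have hle : ∀ i m, O.valuation ((a' i).coeff m * t ^ m) ≤ O.valuation β := by
    intro i m
    by_cases hi : i = i0
    · subst hi
      exact k1 m
    · exact k3 ⟨i, hi⟩ m
  have hbO : ∀ i m, (b i).coeff m ∈ Set.range O.subtype := by
    intro i m
    have h2 : O.valuation ((b i).coeff m) ≤ 1 := by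
      rw [hbc, map_mul, ← hvβ]
      gcongr
      exact hle i m
    exact ⟨⟨_, (O.valuation_le_one_iff _).1 h2⟩, rfl⟩
  choose bl hbl hbld using fun i => exists_liftP O.subtype (b i) (hbO i)
  have hblc : ∀ i m, (((bl i).coeff m : O) : K) = (b i).coeff m := by
    intro i m
    rw [← hbl i, Polynomial.coeff_map]
    rfl
  -- the reduction
  let e : Fin (n + 1) → Polynomial (IsLocalRing.ResidueField O) := fun i =>
    (bl i).map (IsLocalRing.residue O)
  have hez : ∀ i m, O.valuation ((a' i).coeff m * t ^ m) < O.valuation β → (e i).coeff m = 0 := by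
    intro i m h
    change ((bl i).map (IsLocalRing.residue O)).coeff m = 0
    rw [Polynomial.coeff_map, IsLocalRing.residue_eq_zero_iff, O.valuation_lt_one_iff]
    rw [hblc, hbc, map_mul, ← hvβ]
    exact mul_lt_mul_of_pos_left h (zero_lt_iff.2 hvβ')
  have hen : ∀ i m, O.valuation ((a' i).coeff m * t ^ m) = O.valuation β → (e i).coeff m ≠ 0 := by
    intro i m h h2
    change ((bl i).map (IsLocalRing.residue O)).coeff m = 0 at h2
    rw [Polynomial.coeff_map, IsLocalRing.residue_eq_zero_iff, O.valuation_lt_one_iff] at h2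
    rw [hblc, hbc, map_mul, ← hvβ, h] at h2
    exact lt_irrefl _ h2
  have hed : ∀ i, (e i).natDegree ≤ N := by
    intro i
    refine Polynomial.natDegree_map_le.trans ((hbld i).trans ?_)
    rw [hb]
    refine (Polynomial.natDegree_C_mul_le _ _).trans ?_
    refine Polynomial.natDegree_comp_le.trans ?_
    have h2 : (Polynomial.C t * Polynomial.X : Polynomial K).natDegree ≤ 1 :=
      (Polynomial.natDegree_C_mul_le _ _).trans Polynomial.natDegree_X_le
    calc (a' i).natDegree * (Polynomial.C t * Polynomial.X : Polynomial K).natDegree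
        ≤ (a' i).natDegree * 1 := Nat.mul_le_mul_left _ h2
      _ ≤ N := by rw [mul_one]; exact hN' i
  have hdvd : ∀ i, (Polynomial.X : Polynomial (IsLocalRing.ResidueField O)) ^ m0 ∣ e i := by
    intro i
    rw [Polynomial.X_pow_dvd_iff]
    intro m hm
    apply hez
    by_cases hi : i = i0
    · subst hi
      exact k2 m hm
    · exact k4 ⟨i, hi⟩ m hm.le
  choose g hg using hdvd
  have hgc : ∀ i m, (g i).coeff m = (e i).coeff (m + m0) := by
    intro i m
    rw [hg i, Polynomial.coeff_X_pow_mul]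
  have hgd : ∀ i, (g i).natDegree ≤ N := by
    intro i
    rw [Polynomial.natDegree_le_iff_coeff_eq_zero]
    intro m hm
    rw [hgc]
    exact Polynomial.coeff_eq_zero_of_natDegree_lt ((hed i).trans_lt (by omega))
  have hg0 : (g i0).coeff 0 ≠ 0 := by
    rw [hgc, zero_add]
    exact hen i0 m0 rfl
  have hgi : ∀ i, i ≠ i0 → (g i).coeff 0 = 0 := by
    intro i hi
    rw [hgc, zero_add]
    exact hez i m0 (k4 ⟨i, hi⟩ m0 le_rfl)
  have hg3 : g i3 ≠ 0 := by
    intro h
    apply hen i3 m1 k5
    rw [hg i3, h, mul_zero, Polynomial.coeff_zero]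
  let r : O →+* IsLocalRing.ResidueField O := IsLocalRing.residue O
  refine ⟨fun i => g i + Polynomial.C (r (c' i)) * g i0, fun i => ?_, fun j => ?_,
    ⟨(g i0).coeff 0, hg0, fun i => ?_⟩, i3, ?_⟩
  · refine (Polynomial.natDegree_add_le _ _).trans (max_le (hgd i) ?_)
    exact (Polynomial.natDegree_C_mul_le _ _).trans (hgd i0)
  · obtain ⟨d, hd⟩ := hhom j
    -- over the valuation ring
    have h2 : eval₂ (Polynomial.C.comp (RingHom.id O))
        (fun i => bl i + Polynomial.C (c' i) * bl i0) (F j) = 0 := by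
      apply Polynomial.map_injective O.subtype Subtype.val_injective
      rw [Polynomial.map_zero, map_eval₂, RingHom.comp_id]
      apply poly_zero_of (S.image fun w => t⁻¹ * w)
      intro w hw
      rw [eval_eval₂]
      obtain ⟨u, μ, hu⟩ := hS (t * w) (fun h => hw (Finset.mem_image.2 ⟨t * w, h, by
        rw [← mul_assoc, inv_mul_cancel₀ ht, one_mul]⟩))
      have h3 : (fun i => ((bl i + Polynomial.C (c' i) * bl i0).map O.subtype).eval w) =
          fun i => (β⁻¹ * μ) * (p i).eval u := by
        funext i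
        rw [Polynomial.map_add, Polynomial.map_mul, Polynomial.map_C, hbl, hbl,
          Polynomial.eval_add, Polynomial.eval_mul, Polynomial.eval_C, hbe, hbe, hu, hu, ha0]
        change _ * (_ * (p i - Polynomial.C (c' i : K) * p i0).eval u) +
          (c' i : K) * _ = _
        rw [Polynomial.eval_sub, Polynomial.eval_mul, Polynomial.eval_C]
        ring
      rw [h3, scale_eval _ _ _ hd, ← eval_eval₂, hF j, Polynomial.eval_zero, mul_zero]
    have h3 := congrArg (Polynomial.map r) h2
    rw [Polynomial.map_zero, map_eval₂, RingHom.comp_id] at h3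
    have h4 : (fun i => (bl i + Polynomial.C (c' i) * bl i0).map r) =
        fun i => (Polynomial.X : Polynomial (IsLocalRing.ResidueField O)) ^ m0 *
          (g i + Polynomial.C (r (c' i)) * g i0) := by
      funext i
      rw [Polynomial.map_add, Polynomial.map_mul, Polynomial.map_C]
      change e i + Polynomial.C (r (c' i)) * e i0 = _
      rw [hg i, hg i0]
      ring
    rw [h4, scale_eval _ _ _ hd] at h3
    exact (mul_eq_zero.1 h3).resolve_left (pow_ne_zero _ (pow_ne_zero _ Polynomial.X_ne_zero))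
  · rw [Polynomial.eval_add, Polynomial.eval_mul, Polynomial.eval_C,
      ← Polynomial.coeff_zero_eq_eval_zero, ← Polynomial.coeff_zero_eq_eval_zero]
    by_cases hi : i = i0
    · subst hi
      rw [hc'0, hc, map_zero, map_one]
      ring
    · rw [hgi i hi, hc' i hi]
      change 0 + IsLocalRing.residue O (c i) * _ = _
      ring
  · intro h
    apply hg3
    beta_reduce at h
    rw [hc'0, hc' i3 hi3, map_zero, Polynomial.C_0, zero_mul, add_zero] at h
    exact add_eq_right.1 h

end Pool.Agent.R393.UH
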