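import Pool.Agent.R393.UH.Red

/-!
Rational curves through the specialisations of a point.
-/

set_option autoImplicit false

namespace Pool.Agent.R393.UH

open MvPolynomial Pool.Agent.R393.UF

theorem dominate {R K κ' : Type} [CommRing R] [Field K] [Field κ'] (f : R →+* K) (g : R →+* κ')
    (h : ∀ a, f a = 0 → g a = 0) : ∃ (O : ValuationSubring K) (f1 : R →+* O),
      (∀ a, ((f1 a : O) : K) = f a) ∧ ∀ a, g a = 0 ↔ IsLocalRing.residue O (f1 a) = 0 := by
  have hP : (RingHom.ker g).IsPrime := RingHom.ker_isPrime g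
  have hu : ∀ y : (RingHom.ker g).primeCompl, IsUnit (f y) := by
    intro y
    rw [isUnit_iff_ne_zero]
    intro h1
    exact y.2 (h _ h1)
  let f' : Localization.AtPrime (RingHom.ker g) →+* K := IsLocalization.lift hu
  obtain ⟨O, hO, hloc⟩ := IsLocalRing.exists_factor_valuationRing f'
  refine ⟨O, (f'.codRestrict O.toSubring hO).comp
    (algebraMap R (Localization.AtPrime (RingHom.ker g))), fun a => ?_, fun a => ?_⟩
  · exact IsLocalization.lift_eq hu a
  · rw [IsLocalRing.residue_eq_zero_iff, IsLocalRing.mem_maximalIdeal, mem_nonunits_iff]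
    constructor
    · intro h1 h2
      have h3 : IsUnit (algebraMap R (Localization.AtPrime (RingHom.ker g)) a) :=
        hloc.map_nonunit _ h2
      rw [IsLocalization.AtPrime.isUnit_to_map_iff (Localization.AtPrime (RingHom.ker g))
        (RingHom.ker g)] at h3
      exact h3 h1
    · intro h1
      by_contra h2
      apply h1
      have h3 : IsUnit (algebraMap R (Localization.AtPrime (RingHom.ker g)) a) :=
        (IsLocalization.AtPrime.isUnit_to_map_iff (Localization.AtPrime (RingHom.ker g))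
          (RingHom.ker g) a).2 h2
      exact h3.map (f'.codRestrict O.toSubring hO)

theorem comp_eval₂ {A K : Type} [CommRing A] [CommRing K] (β : A →+* K) {n : ℕ}
    (p : Fin n → Polynomial K) (l : Polynomial K) (G : MvPolynomial (Fin n) A) :
    (eval₂ (Polynomial.C.comp β) p G).comp l =
      eval₂ (Polynomial.C.comp β) (fun i => (p i).comp l) G := by
  have h := hom_eval₂ G (Polynomial.C.comp β) (Polynomial.compRingHom l) p
  rw [Polynomial.coe_compRingHom] at h
  beta_reduce at h
  rw [h]
  congr 1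
  refine RingHom.ext fun a => ?_
  change (Polynomial.C (β a)).comp l = Polynomial.C (β a)
  rw [Polynomial.C_comp]

/-- **Curves through the specialisations of a point.** -/
theorem spec_curve {A κ L : Type} [CommRing A] [Field κ] [Field L] (α0 : A →+* κ) (β0 : A →+* L)
    {n : ℕ} (P : Fin (n + 1) → κ) (hP : ∃ i, P i ≠ 0) (q : Fin (n + 1) → L)
    (hPq : ∀ (G : MvPolynomial (Fin (n + 1)) A) (d : ℕ), G.IsHomogeneous d →
      eval₂ β0 q G = 0 → eval₂ α0 P G = 0)
    (p : Fin (n + 1) → Polynomial L) (d : L) (hd : d ≠ 0) (hp1 : ∀ j, (p j).eval 1 = d * q j)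
    (N : ℕ) (hN : ∀ i, (p i).natDegree ≤ N)
    {ι : Type} (F : ι → MvPolynomial (Fin (n + 1)) A) (hhom : ∀ i, ∃ e, (F i).IsHomogeneous e)
    (hF : ∀ i, eval₂ (Polynomial.C.comp β0) p (F i) = 0)
    (hc : ∃ i j, p i * Polynomial.C ((p j).eval 1) ≠ p j * Polynomial.C ((p i).eval 1)) :
    ∃ (Ω : Type) (_ : Field Ω) (α : κ →+* Ω) (p' : Fin (n + 1) → Polynomial Ω),
      (∀ i, (p' i).natDegree ≤ N) ∧
      (∀ i, eval₂ (Polynomial.C.comp (α.comp α0)) p' (F i) = 0) ∧
      (∀ j, (p' j).eval 1 = α (P j)) ∧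
      ∃ i j, p' i * Polynomial.C ((p' j).eval 1) ≠ p' j * Polynomial.C ((p' i).eval 1) := by
  classical
  obtain ⟨i0, hi0⟩ := hP
  have hq0 : q i0 ≠ 0 := by
    intro h
    apply hi0
    have h1 := hPq (X i0) 1 (isHomogeneous_X _ _) (by rw [eval₂_X, h])
    rwa [eval₂_X] at h1
  let K : Type := AlgebraicClosure (RatFunc L)
  let rL : Polynomial L →+* K := (algebraMap (RatFunc L) K).comp
    (algebraMap (Polynomial L) (RatFunc L))
  let rκ : Polynomial κ →+* RatFunc κ := algebraMap (Polynomial κ) (RatFunc κ)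
  have hrL : Function.Injective rL :=
    (algebraMap (RatFunc L) K).injective.comp (RatFunc.algebraMap_injective L)
  have hrκ : Function.Injective rκ := RatFunc.algebraMap_injective κ
  obtain ⟨O, f1, hf1, hres⟩ := dominate (rL.comp (cone β0 q)) (rκ.comp (cone α0 P)) (fun G hG => by
    rw [RingHom.comp_apply, map_eq_zero_iff _ hrL, cone_zero] at hG
    rw [RingHom.comp_apply, map_eq_zero_iff _ hrκ, cone_zero]
    exact fun e => hPq _ e (homogeneousComponent_isHomogeneous e G) (hG e))
  obtain ⟨Ω, iΩ, α', β', hαβ⟩ := amalg (rκ.comp (cone α0 P)) ((IsLocalRing.residue O).comp f1)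
    (fun G => hres G)
  let ιL : L →+* K := rL.comp Polynomial.C
  let α : κ →+* Ω := (α'.comp rκ).comp Polynomial.C
  let tL : K := rL Polynomial.X
  have htL : tL ≠ 0 := by
    rw [Ne, map_eq_zero_iff _ hrL]
    exact Polynomial.X_ne_zero
  let u : Ω := α' (rκ Polynomial.X)
  have hu : u ≠ 0 := by
    rw [Ne, map_eq_zero, map_eq_zero_iff _ hrκ]
    exact Polynomial.X_ne_zero
  let r : O →+* IsLocalRing.ResidueField O := IsLocalRing.residue O
  have hX : ∀ j, u * α (P j) = β' (r (f1 (X j))) := by
    intro j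
    have h1 := hαβ (X j)
    rw [RingHom.comp_apply, RingHom.comp_apply] at h1
    unfold cone at h1
    rw [coe_eval₂Hom, eval₂_X, map_mul, map_mul] at h1
    exact h1
  have hA : ∀ a, α (α0 a) = β' (r (f1 (C a))) := by
    intro a
    have h1 := hαβ (C a)
    rw [RingHom.comp_apply, RingHom.comp_apply] at h1
    unfold cone at h1
    rw [coe_eval₂Hom, eval₂_C] at h1
    exact h1
  have hfX : ∀ j, ((f1 (X j) : O) : K) = tL * ιL (q j) := by
    intro j
    rw [hf1, RingHom.comp_apply]
    unfold cone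
    rw [coe_eval₂Hom, eval₂_X, map_mul]
    rfl
  have hfC : ∀ a, ((f1 (C a) : O) : K) = ιL (β0 a) := by
    intro a
    rw [hf1, RingHom.comp_apply]
    unfold cone
    rw [coe_eval₂Hom, eval₂_C]
    rfl
  have hαP : α (P i0) ≠ 0 := (map_ne_zero α).2 hi0
  have hρ : β' (r (f1 (X i0))) ≠ 0 := by
    rw [← hX]
    exact mul_ne_zero hu hαP
  have hunit : IsUnit (f1 (X i0)) := by
    by_contra h1
    apply hρ
    have h2 : r (f1 (X i0)) = 0 := by
      change IsLocalRing.residue O _ = 0
      rw [IsLocalRing.residue_eq_zero_iff, IsLocalRing.mem_maximalIdeal, mem_nonunits_iff]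
      exact h1
    rw [h2, map_zero]
  obtain ⟨uu, huu⟩ := hunit
  let c : Fin (n + 1) → O := fun j => f1 (X j) * ((uu⁻¹ : Oˣ) : O)
  have hcm : ∀ j, c j * f1 (X i0) = f1 (X j) := by
    intro j
    change f1 (X j) * ((uu⁻¹ : Oˣ) : O) * f1 (X i0) = _
    rw [← huu, mul_assoc, Units.inv_mul, mul_one]
  have hc0 : c i0 = 1 := by
    change f1 (X i0) * ((uu⁻¹ : Oˣ) : O) = 1
    rw [← huu, Units.mul_inv]
  have hqK : ιL (q i0) ≠ 0 := (map_ne_zero ιL).2 hq0
  have hcK : ∀ j, (c j : K) * ιL (q i0) = ιL (q j) := by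
    intro j
    have h1 := congrArg (fun x : O => (x : K)) (hcm j)
    change (c j : K) * (f1 (X i0) : K) = (f1 (X j) : K) at h1
    rw [hfX, hfX] at h1
    apply mul_left_cancel₀ htL
    linear_combination h1
  have hdK : ιL d ≠ 0 := (map_ne_zero ιL).2 hd
  let γ : K := (ιL d * ιL (q i0))⁻¹
  have hγ : γ ≠ 0 := inv_ne_zero (mul_ne_zero hdK hqK)
  obtain ⟨pt, hpt⟩ : ∃ pt : Fin (n + 1) → Polynomial K, ∀ j, pt j =
      Polynomial.C γ * ((p j).map ιL).comp (Polynomial.X + Polynomial.C 1) := ⟨_, fun j => rfl⟩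
  have hpt0 : ∀ j, (pt j).eval 0 = (c j : K) := by
    intro j
    rw [hpt, Polynomial.eval_mul, Polynomial.eval_C, Polynomial.eval_comp, Polynomial.eval_add,
      Polynomial.eval_X, Polynomial.eval_C, zero_add, eval_one_map', hp1, map_mul]
    change (ιL d * ιL (q i0))⁻¹ * (ιL d * ιL (q j)) = _
    rw [inv_mul_eq_iff_eq_mul₀ (mul_ne_zero hdK hqK)]
    linear_combination -(ιL d) * hcK j
  let FO : ι → MvPolynomial (Fin (n + 1)) O := fun i => map (f1.comp C) (F i)
  have hιβ : O.subtype.comp (f1.comp C) = ιL.comp β0 := RingHom.ext hfC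
  obtain ⟨p1, hp1d, hp1F, ⟨γ', hγ', hp10⟩, i3, hi3⟩ := reduceV O FO
    (fun i => by obtain ⟨e, he⟩ := hhom i; exact ⟨e, he.map _⟩) c i0 hc0 pt N (fun i => by
      rw [hpt]
      refine (Polynomial.natDegree_C_mul_le _ _).trans ?_
      rw [Polynomial.natDegree_comp, Polynomial.natDegree_X_add_C, mul_one]
      exact Polynomial.natDegree_map_le.trans (hN i)) hpt0 (fun i => by
      obtain ⟨e, he⟩ := hhom i
      change eval₂ _ pt (map (f1.comp C) (F i)) = 0
      rw [eval₂_map, RingHom.comp_assoc, hιβ]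
      have h1 : pt = fun j => Polynomial.C γ *
          ((p j).map ιL).comp (Polynomial.X + Polynomial.C 1) := funext hpt
      rw [h1, scale_eval _ _ _ he, ← comp_eval₂, ← map_eval₂, hF i, Polynomial.map_zero,
        Polynomial.zero_comp, mul_zero]) (by
      by_contra hcon
      push Not at hcon
      have h1 : ∀ i, (p i).map ιL = Polynomial.C (c i : K) * (p i0).map ιL := by
        intro i
        have h2 := hcon i
        rw [hpt, hpt] at h2
        have h3 : ((p i).map ιL).comp (Polynomial.X + Polynomial.C 1) =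
            Polynomial.C (c i : K) * ((p i0).map ιL).comp (Polynomial.X + Polynomial.C 1) := by
          apply mul_left_cancel₀ (Polynomial.C_ne_zero.2 hγ)
          linear_combination h2
        have h4 := congrArg (fun Q : Polynomial K => Q.comp (Polynomial.X - Polynomial.C 1)) h3
        simp only [Polynomial.mul_comp, Polynomial.C_comp, Polynomial.comp_assoc,
          Polynomial.add_comp, Polynomial.X_comp, sub_add_cancel, Polynomial.comp_X] at h4
        exact h4
      obtain ⟨i, j, h2⟩ := hc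
      apply h2
      apply Polynomial.map_injective ιL ιL.injective
      rw [Polynomial.map_mul, Polynomial.map_mul, Polynomial.map_C, Polynomial.map_C,
        ← eval_one_map' ιL (p j), ← eval_one_map' ιL (p i), h1 i, h1 j, Polynomial.eval_mul, Polynomial.eval_mul,
        Polynomial.eval_C, Polynomial.eval_C, map_mul, map_mul]
      ring)
  have hβγ : β' γ' ≠ 0 := (map_ne_zero β').2 hγ'
  let ρ : Ω := β' (r (f1 (X i0)))
  let w : Ω := ρ / (u * β' γ')
  have hw : w ≠ 0 := div_ne_zero hρ (mul_ne_zero hu hβγ)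
  have hrc : ∀ j, u * α (P j) = β' (r (c j)) * ρ := by
    intro j
    rw [hX, ← hcm j, map_mul, map_mul]
  obtain ⟨p2, hp2⟩ : ∃ p2 : Fin (n + 1) → Polynomial Ω, ∀ j, p2 j =
      Polynomial.C w * ((p1 j).map β').comp (Polynomial.X - Polynomial.C 1) := ⟨_, fun j => rfl⟩
  have hp21 : ∀ j, (p2 j).eval 1 = α (P j) := by
    intro j
    have h1 : ((p1 j).map β').eval 0 = β' (γ' * r (c j)) := by
      rw [← Polynomial.coeff_zero_eq_eval_zero, Polynomial.coeff_map,
        Polynomial.coeff_zero_eq_eval_zero, hp10]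
    rw [hp2, Polynomial.eval_mul, Polynomial.eval_C, Polynomial.eval_comp, Polynomial.eval_sub,
      Polynomial.eval_X, Polynomial.eval_C, sub_self, h1, map_mul]
    change ρ / (u * β' γ') * _ = _
    rw [div_mul_eq_mul_div, div_eq_iff (mul_ne_zero hu hβγ)]
    linear_combination -(β' γ') * hrc j
  refine ⟨Ω, iΩ, α, p2, fun i => ?_, fun i => ?_, hp21, i3, i0, ?_⟩
  · rw [hp2]
    refine (Polynomial.natDegree_C_mul_le _ _).trans ?_
    rw [Polynomial.natDegree_comp, Polynomial.natDegree_X_sub_C, mul_one]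
    exact Polynomial.natDegree_map_le.trans (hp1d i)
  · obtain ⟨e, he⟩ := hhom i
    have h1 : p2 = fun j => Polynomial.C w *
        ((p1 j).map β').comp (Polynomial.X - Polynomial.C 1) := funext hp2
    have h2 : α.comp α0 = β'.comp (r.comp (f1.comp C)) := RingHom.ext hA
    have h3 := hp1F i
    change eval₂ _ p1 (map (f1.comp C) (F i)) = 0 at h3
    rw [eval₂_map, RingHom.comp_assoc] at h3
    rw [h1, scale_eval _ _ _ he, ← comp_eval₂, h2, ← map_eval₂, h3, Polynomial.map_zero,
      Polynomial.zero_comp, mul_zero]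
  · intro h
    apply hi3
    rw [hp21, hp21, hp2, hp2] at h
    have h1 : ((p1 i3).map β').comp (Polynomial.X - Polynomial.C 1) =
        Polynomial.C (β' (r (c i3))) *
          ((p1 i0).map β').comp (Polynomial.X - Polynomial.C 1) := by
      have h2 : α (P i3) = β' (r (c i3)) * α (P i0) := by
        apply mul_left_cancel₀ hu
        have h3 := hrc i3
        have h4 := hrc i0
        rw [hc0, map_one, map_one, one_mul] at h4
        rw [← h4] at h3
        linear_combination h3
      rw [h2, map_mul] at h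
      apply mul_left_cancel₀ (mul_ne_zero (Polynomial.C_ne_zero.2 hw) (Polynomial.C_ne_zero.2 hαP))
      linear_combination h
    have h4 := congrArg (fun Q : Polynomial Ω => Q.comp (Polynomial.X + Polynomial.C 1)) h1
    simp only [Polynomial.mul_comp, Polynomial.C_comp, Polynomial.comp_assoc,
      Polynomial.sub_comp, Polynomial.X_comp, add_sub_cancel_right, Polynomial.comp_X] at h4
    apply Polynomial.map_injective β' β'.injective
    rw [Polynomial.map_mul, Polynomial.map_C]
    exact h4

end Pool.Agent.R393.UH
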